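import Mathlib
import Pool.Agent.KS6_2.FN.Poly

set_option autoImplicit false

/-!
Spaces of `5 × 5` matrices of rank at most three, in normal form.
-/

namespace Pool.Agent.KS6_2.FN

open Matrix

variable {K : Type*} [Field K] {V : Type*} [AddCommGroup V] [Module K V]

/-- entry -/
def ent {p q : ℕ} (f : V →ₗ[K] Matrix (Fin p) (Fin q) K) (i : Fin p) (j : Fin q) : V →ₗ[K] K where
  toFun B := f B i j
  map_add' a b := by simp
  map_smul' a b := by simp

lemma ent_apply {p q : ℕ} (f : V →ₗ[K] Matrix (Fin p) (Fin q) K) (i : Fin p) (j : Fin q) (B : V) :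
    ent f i j B = f B i j := rfl

variable (K V) in
/-- the blocks of a space of matrices of rank at most three -/
structure Dat where
  m : V →ₗ[K] Matrix (Fin 3) (Fin 3) K
  x : V →ₗ[K] Matrix (Fin 2) (Fin 3) K
  y : V →ₗ[K] Matrix (Fin 3) (Fin 2) K
  f1 : ∀ B, x B * y B = 0
  f2 : ∀ B, x B * m B * y B = 0
  f3 : ∀ B, x B * m B * m B * y B = 0
  inj : ∀ B, m B = 0 → x B = 0 → y B = 0 → B = 0

/-- transposition -/
def Dat.tr (D : Dat K V) : Dat K V where
  m := (Matrix.transposeLinearEquiv _ _ K K).toLinearMap ∘ₗ D.m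
  x := (Matrix.transposeLinearEquiv _ _ K K).toLinearMap ∘ₗ D.y
  y := (Matrix.transposeLinearEquiv _ _ K K).toLinearMap ∘ₗ D.x
  f1 B := by
    change (D.y B)ᵀ * (D.x B)ᵀ = 0
    rw [← Matrix.transpose_mul, D.f1, Matrix.transpose_zero]
  f2 B := by
    change (D.y B)ᵀ * (D.m B)ᵀ * (D.x B)ᵀ = 0
    rw [← Matrix.transpose_mul, ← Matrix.transpose_mul, ← Matrix.mul_assoc, D.f2,
      Matrix.transpose_zero]
  f3 B := by
    change (D.y B)ᵀ * (D.m B)ᵀ * (D.m B)ᵀ * (D.x B)ᵀ = 0
    rw [← Matrix.transpose_mul, ← Matrix.transpose_mul, ← Matrix.transpose_mul,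
      ← Matrix.mul_assoc, ← Matrix.mul_assoc, D.f3, Matrix.transpose_zero]
  inj B h1 h2 h3 := by
    refine D.inj B ?_ ?_ ?_
    · have := congrArg Matrix.transpose h1
      simpa using this
    · have := congrArg Matrix.transpose h3
      simpa using this
    · have := congrArg Matrix.transpose h2
      simpa using this

lemma Dat.tr_m (D : Dat K V) (B : V) : D.tr.m B = (D.m B)ᵀ := rfl
lemma Dat.tr_x (D : Dat K V) (B : V) : D.tr.x B = (D.y B)ᵀ := rfl
lemma Dat.tr_y (D : Dat K V) (B : V) : D.tr.y B = (D.x B)ᵀ := rfl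

/-- change of coordinates -/
noncomputable def Dat.conj (D : Dat K V) (g : Matrix (Fin 3) (Fin 3) K) (hg : IsUnit g.det) :
    Dat K V where
  m := { toFun := fun B => g * D.m B * g⁻¹
         map_add' := fun a b => by simp [Matrix.mul_add, Matrix.add_mul]
         map_smul' := fun a b => by simp }
  x := { toFun := fun B => D.x B * g⁻¹
         map_add' := fun a b => by simp [Matrix.add_mul]
         map_smul' := fun a b => by simp }
  y := { toFun := fun B => g * D.y B
         map_add' := fun a b => by simp [Matrix.mul_add]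
         map_smul' := fun a b => by simp }
  f1 B := by
    change D.x B * g⁻¹ * (g * D.y B) = 0
    rw [Matrix.mul_assoc, ← Matrix.mul_assoc g⁻¹, Matrix.nonsing_inv_mul _ hg, Matrix.one_mul, D.f1]
  f2 B := by
    change D.x B * g⁻¹ * (g * D.m B * g⁻¹) * (g * D.y B) = 0
    have : D.x B * g⁻¹ * (g * D.m B * g⁻¹) * (g * D.y B) =
        D.x B * (g⁻¹ * g) * D.m B * (g⁻¹ * g) * D.y B := by
      simp only [Matrix.mul_assoc]
    rw [this, Matrix.nonsing_inv_mul _ hg, Matrix.mul_one, Matrix.mul_one, D.f2]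
  f3 B := by
    change D.x B * g⁻¹ * (g * D.m B * g⁻¹) * (g * D.m B * g⁻¹) * (g * D.y B) = 0
    have : D.x B * g⁻¹ * (g * D.m B * g⁻¹) * (g * D.m B * g⁻¹) * (g * D.y B) =
        D.x B * (g⁻¹ * g) * D.m B * (g⁻¹ * g) * D.m B * (g⁻¹ * g) * D.y B := by
      simp only [Matrix.mul_assoc]
    rw [this, Matrix.nonsing_inv_mul _ hg, Matrix.mul_one, Matrix.mul_one, Matrix.mul_one, D.f3]
  inj B h1 h2 h3 := by
    refine D.inj B ?_ ?_ ?_
    · have h1' : g * D.m B * g⁻¹ = 0 := h1
      have : g⁻¹ * (g * D.m B * g⁻¹) * g = (g⁻¹ * g) * D.m B * (g⁻¹ * g) := by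
        simp only [Matrix.mul_assoc]
      rw [Matrix.nonsing_inv_mul _ hg, Matrix.one_mul, Matrix.mul_one] at this
      rw [← this, h1', Matrix.mul_zero, Matrix.zero_mul]
    · have h2' : D.x B * g⁻¹ = 0 := h2
      have : D.x B * g⁻¹ * g = D.x B := by
        rw [Matrix.mul_assoc, Matrix.nonsing_inv_mul _ hg, Matrix.mul_one]
      rw [← this, h2', Matrix.zero_mul]
    · have h3' : g * D.y B = 0 := h3
      have : g⁻¹ * (g * D.y B) = D.y B := by
        rw [← Matrix.mul_assoc, Matrix.nonsing_inv_mul _ hg, Matrix.one_mul]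
      rw [← this, h3', Matrix.mul_zero]

lemma Dat.conj_m (D : Dat K V) (g : Matrix (Fin 3) (Fin 3) K) (hg : IsUnit g.det) (B : V) :
    (D.conj g hg).m B = g * D.m B * g⁻¹ := rfl
lemma Dat.conj_x (D : Dat K V) (g : Matrix (Fin 3) (Fin 3) K) (hg : IsUnit g.det) (B : V) :
    (D.conj g hg).x B = D.x B * g⁻¹ := rfl
lemma Dat.conj_y (D : Dat K V) (g : Matrix (Fin 3) (Fin 3) K) (hg : IsUnit g.det) (B : V) :
    (D.conj g hg).y B = g * D.y B := rfl

/-- type one -/
def Dat.T1 (D : Dat K V) : Prop := ∃ ρ : Fin 3 → K, ρ ≠ 0 ∧ ∀ B, (∃ z : Fin 2 → K,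
  D.x B = vecMulVec z ρ) ∧ ρ ᵥ* D.y B = 0 ∧ ∃ c : K, ρ ᵥ* D.m B = c • ρ

/-- type two -/
def Dat.T2 (D : Dat K V) : Prop := ∃ η : Fin 3 → K, η ≠ 0 ∧ ∀ B, (∃ β : Fin 2 → K,
  D.y B = vecMulVec η β) ∧ D.x B *ᵥ η = 0 ∧ ∃ c : K, D.m B *ᵥ η = c • η

/-- the result of the classification -/
def Dat.Res (D : Dat K V) : Prop := (∀ B, D.x B = 0) ∨ D.T1 ∨ D.T2 ∨ ∀ B, D.y B = 0

lemma Dat.res_of_tr {D : Dat K V} (h : D.tr.Res) : D.Res := by
  rcases h with h | h | h | h
  · refine Or.inr (Or.inr (Or.inr fun B => ?_))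
    have := congrArg Matrix.transpose (h B)
    simpa [Dat.tr_x] using this
  · refine Or.inr (Or.inr (Or.inl ?_))
    obtain ⟨ρ, hρ, hall⟩ := h
    refine ⟨ρ, hρ, fun B => ?_⟩
    obtain ⟨⟨z, hz⟩, h2, c, hc⟩ := hall B
    refine ⟨⟨z, ?_⟩, ?_, c, ?_⟩
    · have := congrArg Matrix.transpose hz
      simpa [Dat.tr_x, Matrix.transpose_vecMulVec] using this
    · rw [Dat.tr_y, Matrix.vecMul_transpose] at h2
      exact h2
    · rw [Dat.tr_m, Matrix.vecMul_transpose] at hc
      exact hc
  · refine Or.inr (Or.inl ?_)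
    obtain ⟨ρ, hρ, hall⟩ := h
    refine ⟨ρ, hρ, fun B => ?_⟩
    obtain ⟨⟨z, hz⟩, h2, c, hc⟩ := hall B
    refine ⟨⟨z, ?_⟩, ?_, c, ?_⟩
    · have := congrArg Matrix.transpose hz
      simpa [Dat.tr_y, Matrix.transpose_vecMulVec] using this
    · rw [Dat.tr_x, Matrix.mulVec_transpose] at h2
      exact h2
    · rw [Dat.tr_m, Matrix.mulVec_transpose] at hc
      exact hc
  · refine Or.inl fun B => ?_
    have := congrArg Matrix.transpose (h B)
    simpa [Dat.tr_y] using this

lemma Dat.res_of_conj {D : Dat K V} {g : Matrix (Fin 3) (Fin 3) K} {hg : IsUnit g.det}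
    (h : (D.conj g hg).Res) : D.Res := by
  have hx : ∀ B, D.x B = (D.conj g hg).x B * g := by
    intro B
    rw [Dat.conj_x, Matrix.mul_assoc, Matrix.nonsing_inv_mul _ hg, Matrix.mul_one]
  have hy : ∀ B, D.y B = g⁻¹ * (D.conj g hg).y B := by
    intro B
    rw [Dat.conj_y, ← Matrix.mul_assoc, Matrix.nonsing_inv_mul _ hg, Matrix.one_mul]
  have hm : ∀ B, D.m B = g⁻¹ * (D.conj g hg).m B * g := by
    intro B
    rw [Dat.conj_m]
    have : g⁻¹ * (g * D.m B * g⁻¹) * g = (g⁻¹ * g) * D.m B * (g⁻¹ * g) := by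
      simp only [Matrix.mul_assoc]
    rw [this, Matrix.nonsing_inv_mul _ hg, Matrix.one_mul, Matrix.mul_one]
  rcases h with h | h | h | h
  · refine Or.inl fun B => ?_
    rw [hx, h, Matrix.zero_mul]
  · refine Or.inr (Or.inl ?_)
    obtain ⟨ρ, hρ, hall⟩ := h
    refine ⟨ρ ᵥ* g, ?_, fun B => ?_⟩
    · intro h0
      apply hρ
      have := congrArg (fun v => v ᵥ* g⁻¹) h0
      simpa [Matrix.vecMul_vecMul, Matrix.mul_nonsing_inv _ hg] using this
    · obtain ⟨⟨z, hz⟩, h2, c, hc⟩ := hall B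
      refine ⟨⟨z, ?_⟩, ?_, c, ?_⟩
      · rw [hx, hz, Matrix.vecMulVec_mul]
      · rw [hy, Matrix.vecMul_vecMul, ← Matrix.mul_assoc, Matrix.mul_nonsing_inv _ hg,
          Matrix.one_mul, h2]
      · rw [hm, Matrix.vecMul_vecMul, ← Matrix.mul_assoc, ← Matrix.mul_assoc,
          Matrix.mul_nonsing_inv _ hg, Matrix.one_mul, ← Matrix.vecMul_vecMul, hc,
          Matrix.smul_vecMul]
  · refine Or.inr (Or.inr (Or.inl ?_))
    obtain ⟨η, hη, hall⟩ := h
    refine ⟨g⁻¹ *ᵥ η, ?_, fun B => ?_⟩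
    · intro h0
      apply hη
      have := congrArg (fun v => g *ᵥ v) h0
      simpa [Matrix.mulVec_mulVec, Matrix.mul_nonsing_inv _ hg] using this
    · obtain ⟨⟨z, hz⟩, h2, c, hc⟩ := hall B
      refine ⟨⟨z, ?_⟩, ?_, c, ?_⟩
      · rw [hy, hz, Matrix.mul_vecMulVec]
      · rw [hx, Matrix.mulVec_mulVec, Matrix.mul_assoc, Matrix.mul_nonsing_inv _ hg,
          Matrix.mul_one, h2]
      · rw [hm, Matrix.mulVec_mulVec, Matrix.mul_assoc, Matrix.mul_assoc,
          Matrix.mul_nonsing_inv _ hg, Matrix.mul_one, ← Matrix.mulVec_mulVec, hc,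
          Matrix.mulVec_smul]
  · refine Or.inr (Or.inr (Or.inr fun B => ?_))
    rw [hy, h, Matrix.mul_zero]

section inf

variable [Infinite K]

lemma isPoly_ent {p q : ℕ} (f : V →ₗ[K] Matrix (Fin p) (Fin q) K) (i : Fin p) (j : Fin q) :
    IsPoly (fun B => f B i j) := IsPoly.lin (ent f i j)

/-- the case where all rows of `x` are multiples of the last covector, and the upper block of `y`
has a common column -/
lemma Dat.res_A2a (D : Dat K V) (hx : ∀ B i, D.x B i 0 = 0 ∧ D.x B i 1 = 0)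
    (hy2 : ∀ B j, D.y B 2 j = 0)
    (hq : ∀ B j, D.m B 2 0 * D.y B 0 j + D.m B 2 1 * D.y B 1 j = 0)
    (hc : ∀ B j, D.m B 2 0 * (D.m B 0 0 * D.y B 0 j + D.m B 0 1 * D.y B 1 j) +
      D.m B 2 1 * (D.m B 1 0 * D.y B 0 j + D.m B 1 1 * D.y B 1 j) = 0)
    (p q : K) (hpq : p ≠ 0 ∨ q ≠ 0) (β : V →ₗ[K] (Fin 2 → K))
    (h0 : ∀ B j, D.y B 0 j = p * β B j) (h1 : ∀ B j, D.y B 1 j = q * β B j) : D.Res := by
  by_cases hβ : ∀ B j, β B j = 0
  · refine Or.inr (Or.inr (Or.inr fun B => ?_))
    ext i j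
    fin_cases i
    · simp [h0, hβ]
    · simp [h1, hβ]
    · simp [hy2]
  push Not at hβ
  obtain ⟨B₀, j, hB₀⟩ := hβ
  have hβp : IsPoly (fun B => β B j) := IsPoly.lin (LinearMap.proj j ∘ₗ β)
  have hq' : ∀ B, D.m B 2 0 * p + D.m B 2 1 * q = 0 := by
    have := IsPoly.eq_zero_or hβp (((isPoly_ent D.m 2 0).mul (IsPoly.const p)).add
      ((isPoly_ent D.m 2 1).mul (IsPoly.const q))) (fun B => by
        have := hq B j
        rw [h0, h1] at this
        linear_combination this)
    exact this.resolve_left (fun h => hB₀ (h B₀))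
  have hc' : ∀ B, D.m B 2 0 * (D.m B 0 0 * p + D.m B 0 1 * q) +
      D.m B 2 1 * (D.m B 1 0 * p + D.m B 1 1 * q) = 0 := by
    have := IsPoly.eq_zero_or hβp (((isPoly_ent D.m 2 0).mul
      (((isPoly_ent D.m 0 0).mul (IsPoly.const p)).add
      ((isPoly_ent D.m 0 1).mul (IsPoly.const q)))).add ((isPoly_ent D.m 2 1).mul
      (((isPoly_ent D.m 1 0).mul (IsPoly.const p)).add
      ((isPoly_ent D.m 1 1).mul (IsPoly.const q))))) (fun B => by
        have := hc B j
        rw [h0, h1] at this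
        linear_combination this)
    exact this.resolve_left (fun h => hB₀ (h B₀))
  -- the alternative
  have halt : (∀ B, D.m B 2 0 = 0 ∧ D.m B 2 1 = 0) ∨
      (∀ B, q * (D.m B 0 0 * p + D.m B 0 1 * q) = p * (D.m B 1 0 * p + D.m B 1 1 * q)) := by
    by_cases hp : p ≠ 0
    · have := IsPoly.eq_zero_or (isPoly_ent D.m 2 1)
        (((IsPoly.const p).mul (((isPoly_ent D.m 1 0).mul (IsPoly.const p)).add
        ((isPoly_ent D.m 1 1).mul (IsPoly.const q)))).sub ((IsPoly.const q).mul
        (((isPoly_ent D.m 0 0).mul (IsPoly.const p)).add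
        ((isPoly_ent D.m 0 1).mul (IsPoly.const q))))) (fun B => by
          have e1 := hc' B
          have e2 := hq' B
          linear_combination p * e1 - (D.m B 0 0 * p + D.m B 0 1 * q) * e2)
      rcases this with h | h
      · left
        intro B
        refine ⟨?_, h B⟩
        have e2 := hq' B
        rw [h B, zero_mul, add_zero] at e2
        exact (mul_eq_zero.1 e2).resolve_right hp
      · right
        intro B
        linear_combination - (h B)
    · have hp0 : p = 0 := not_not.1 hp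
      have hq0 : q ≠ 0 := hpq.resolve_left hp
      have h21 : ∀ B, D.m B 2 1 = 0 := by
        intro B
        have e2 := hq' B
        rw [hp0, mul_zero, zero_add] at e2
        exact (mul_eq_zero.1 e2).resolve_right hq0
      have := IsPoly.eq_zero_or (isPoly_ent D.m 2 0) (isPoly_ent D.m 0 1) (fun B => by
        have e1 := hc' B
        rw [h21, hp0] at e1
        have e3 : D.m B 2 0 * D.m B 0 1 * q = 0 := by linear_combination e1
        exact (mul_eq_zero.1 e3).resolve_right hq0)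
      rcases this with h | h
      · left
        exact fun B => ⟨h B, h21 B⟩
      · right
        intro B
        rw [hp0, h B]
        ring
  rcases halt with h | h
  · -- type one
    refine Or.inr (Or.inl ⟨![0, 0, 1], ?_, fun B => ⟨⟨fun i => D.x B i 2, ?_⟩, ?_, D.m B 2 2, ?_⟩⟩)
    · intro h0
      have := congrFun h0 2
      simp at this
    · ext i a
      rw [vecMulVec_apply]
      fin_cases a
      · simp [(hx B i).1]
      · simp [(hx B i).2]
      · simp
    · ext j
      simp [Matrix.vecMul, dotProduct, Fin.sum_univ_three, hy2]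
    · ext j
      fin_cases j
      · simp [Matrix.vecMul, dotProduct, Fin.sum_univ_three, (h B).1]
      · simp [Matrix.vecMul, dotProduct, Fin.sum_univ_three, (h B).2]
      · simp [Matrix.vecMul, dotProduct, Fin.sum_univ_three]
  · -- type two
    refine Or.inr (Or.inr (Or.inl ⟨![p, q, 0], ?_, fun B => ⟨⟨β B, ?_⟩, ?_, ?_⟩⟩))
    · intro h0
      rcases hpq with hp | hp
      · exact hp (by simpa using congrFun h0 0)
      · exact hp (by simpa using congrFun h0 1)
    · ext i j
      rw [vecMulVec_apply]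
      fin_cases i
      · simp [h0]
      · simp [h1]
      · simp [hy2]
    · ext i
      simp [Matrix.mulVec, dotProduct, Fin.sum_univ_three, (hx B i).1, (hx B i).2]
    · by_cases hp : p ≠ 0
      · refine ⟨(D.m B 0 0 * p + D.m B 0 1 * q) / p, ?_⟩
        ext i
        fin_cases i
        · simp [Matrix.mulVec, dotProduct, Fin.sum_univ_three]
          field_simp
        · simp [Matrix.mulVec, dotProduct, Fin.sum_univ_three]
          field_simp
          linear_combination - (h B)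
        · simp [Matrix.mulVec, dotProduct, Fin.sum_univ_three]
          linear_combination hq' B
      · have hp0 : p = 0 := not_not.1 hp
        have hq0 : q ≠ 0 := hpq.resolve_left hp
        subst hp0
        have e1 : D.m B 0 1 = 0 := by
          have := h B
          have e3 : q * q * D.m B 0 1 = 0 := by linear_combination this
          exact (mul_eq_zero.1 e3).resolve_left (mul_ne_zero hq0 hq0)
        refine ⟨D.m B 1 1, ?_⟩
        ext i
        fin_cases i
        · simp [Matrix.mulVec, dotProduct, Fin.sum_univ_three, e1]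
        · simp [Matrix.mulVec, dotProduct, Fin.sum_univ_three]
        · have h7 := hq' B
          rw [mul_zero, zero_add] at h7
          have h8 := (mul_eq_zero.1 h7).resolve_right hq0
          simp [Matrix.mulVec, dotProduct, Fin.sum_univ_three, h8]

end inf

end Pool.Agent.KS6_2.FN
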