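import Mathlib

set_option autoImplicit false

/-!
The Grassmannian of the projective `(n-1)`-planes in the projective space of `5 × 5` matrices,
with its Zariski topology, and the Fano scheme of the `(n-1)`-planes in the variety of the `5 × 5`
matrices of rank at most `3`, on the level of points over an algebraically closed field.
-/

namespace Pool.Agent.KS6_2.FN

open Matrix Module

/-- the index set of the coordinates of a sequence of `n` matrices of size `5 × 5` -/
abbrev Idx (n : ℕ) : Type := Fin n × Fin 5 × Fin 5

/-- The `n` matrices with the given `n * 25` coordinates. -/
def mats {K : Type*} {n : ℕ} (v : Idx n → K) (k : Fin n) : Matrix (Fin 5) (Fin 5) K :=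
  Matrix.of fun i j => v (k, i, j)

/-- The open set of the affine space of dimension `n * 25` that consists of the linearly
independent sequences of `n` matrices of size `5 × 5`. -/
def Frames (n : ℕ) (K : Type*) [Field K] : Type _ :=
  {v : Idx n → K // LinearIndependent K (mats v)}

/-- The Zariski topology on the set of frames: a frame is a point of the affine space with
coordinate ring `K[x_i]`, and the topology is induced by that of `Spec K[x_i]`. -/
noncomputable instance (n : ℕ) (K : Type*) [Field K] : TopologicalSpace (Frames n K) :=
  TopologicalSpace.induced (fun v : Frames n K =>
    (MvPolynomial.pointToPoint v.1 : PrimeSpectrum (MvPolynomial (Idx n) K))) inferInstance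

/-- The Grassmannian of the projective `(n-1)`-planes in `P^24`: the set of the linear subspaces
of dimension `n` of the `25`-dimensional space of `5 × 5` matrices. -/
def Gr (n : ℕ) (K : Type*) [Field K] : Type _ :=
  {V : Submodule K (Matrix (Fin 5) (Fin 5) K) // finrank K V = n}

/-- The subspace spanned by a frame. -/
def toGr {n : ℕ} {K : Type*} [Field K] (v : Frames n K) : Gr n K :=
  ⟨Submodule.span K (Set.range (mats v.1)), by
    rw [finrank_span_eq_card v.2, Fintype.card_fin]⟩

/-- The Zariski topology on the Grassmannian: it is the quotient topology of that of the set of
frames, of which the Grassmannian is the quotient by the general linear group. -/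
noncomputable instance (n : ℕ) (K : Type*) [Field K] : TopologicalSpace (Gr n K) :=
  TopologicalSpace.coinduced toGr inferInstance

/-- The `K`-points of the Fano scheme `F_{n-1}(D^4_{5,5})`: the subspaces all of whose elements
have vanishing `4 × 4` minors. -/
def Fano (n : ℕ) (K : Type*) [Field K] : Set (Gr n K) :=
  {V | ∀ A ∈ V.1, ∀ r c : Fin 4 → Fin 5, (A.submatrix r c).det = 0}

end Pool.Agent.KS6_2.FN
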