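import Mathlib
import Pool.Agent.KS6_2.FN.Class3
import Pool.Agent.KS6_2.FN.Flanders

set_option autoImplicit false

/-!
Compression spaces among the spaces of `5 × 5` matrices.
-/

namespace Pool.Agent.KS6_2.FN

open Matrix Module

variable {K : Type*} [Field K]

/-- the compression condition -/
def Comp (p q : ℕ) (V : Submodule K (Matrix (Fin 5) (Fin 5) K)) : Prop :=
  ∃ U W : Submodule K (Fin 5 → K), p ≤ finrank K U ∧ q ≤ finrank K W ∧
    ∀ B ∈ V, ∀ u ∈ U, ∀ w ∈ W, w ⬝ᵥ (B *ᵥ u) = 0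

/-- multiplication on both sides -/
def bim (P Q : Matrix (Fin 5) (Fin 5) K) :
    Matrix (Fin 5) (Fin 5) K →ₗ[K] Matrix (Fin 5) (Fin 5) K :=
  LinearMap.mulRight K Q ∘ₗ LinearMap.mulLeft K P

lemma bim_apply (P Q B : Matrix (Fin 5) (Fin 5) K) : bim P Q B = P * B * Q := rfl

lemma bim_injective {P Q : Matrix (Fin 5) (Fin 5) K} (hP : IsUnit P.det) (hQ : IsUnit Q.det) :
    Function.Injective (bim P Q) := by
  rw [injective_iff_map_eq_zero]
  intro X hX
  rw [bim_apply] at hX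
  have h1 : P⁻¹ * (P * X * Q) * Q⁻¹ = 0 := by rw [hX, Matrix.mul_zero, Matrix.zero_mul]
  rw [← Matrix.mul_assoc, ← Matrix.mul_assoc, Matrix.nonsing_inv_mul _ hP,
    Matrix.one_mul, Matrix.mul_assoc, Matrix.mul_nonsing_inv _ hQ,
    Matrix.mul_one] at h1
  exact h1

lemma Comp.of_bim {p q : ℕ} {V : Submodule K (Matrix (Fin 5) (Fin 5) K)}
    {P Q : Matrix (Fin 5) (Fin 5) K} (hP : IsUnit P.det) (hQ : IsUnit Q.det)
    (h : Comp p q (V.map (bim P Q))) : Comp p q V := by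
  obtain ⟨U, W, hU, hW, hall⟩ := h
  have hQi : Function.Injective Q.mulVecLin := by
    intro a b hab
    have := congrArg (fun v => Q⁻¹ *ᵥ v) hab
    simpa [Matrix.mulVec_mulVec, Matrix.nonsing_inv_mul _ hQ] using this
  have hPi : Function.Injective P.vecMulLinear := by
    intro a b hab
    have := congrArg (fun v => v ᵥ* P⁻¹) hab
    simpa [Matrix.vecMul_vecMul, Matrix.mul_nonsing_inv _ hP] using this
  refine ⟨U.map Q.mulVecLin, W.map P.vecMulLinear, ?_, ?_, ?_⟩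
  · rw [← (Submodule.equivMapOfInjective _ hQi U).finrank_eq]
    exact hU
  · rw [← (Submodule.equivMapOfInjective _ hPi W).finrank_eq]
    exact hW
  · rintro B hB _ ⟨u, hu, rfl⟩ _ ⟨w, hw, rfl⟩
    have := hall _ (Submodule.mem_map_of_mem hB) u hu w hw
    rw [bim_apply] at this
    rw [Matrix.mulVecLin_apply, Matrix.vecMulLinear_apply, ← this, ← Matrix.dotProduct_mulVec,
      Matrix.mulVec_mulVec, Matrix.mulVec_mulVec, Matrix.mul_assoc]

/-- the standard matrix of rank three -/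
def E3 (K : Type*) [Field K] : Matrix (Fin 5) (Fin 5) K := diagonal ![1, 1, 1, 0, 0]

lemma exists_perm {D : Fin 5 → K} (h : Nat.card {i // D i ≠ 0} = 3) :
    ∃ σ : Fin 5 ≃ Fin 5, D (σ 0) ≠ 0 ∧ D (σ 1) ≠ 0 ∧ D (σ 2) ≠ 0 ∧ D (σ 3) = 0 ∧ D (σ 4) = 0 := by
  classical
  have h1 : Fintype.card {i // D i ≠ 0} = 3 := by rw [← Nat.card_eq_fintype_card]; exact h
  have h2 : Fintype.card {i // ¬ D i ≠ 0} = 2 := by
    rw [Fintype.card_subtype_compl, h1, Fintype.card_fin]
  let e1 : Fin 3 ≃ {i // D i ≠ 0} := (Fintype.equivFinOfCardEq h1).symm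
  let e2 : Fin 2 ≃ {i // ¬ D i ≠ 0} := (Fintype.equivFinOfCardEq h2).symm
  let σ : Fin 5 ≃ Fin 5 := (finSumFinEquiv (m := 3) (n := 2)).symm.trans
    ((Equiv.sumCongr e1 e2).trans (Equiv.sumCompl (fun i => D i ≠ 0)))
  have hl : ∀ i : Fin 3, D (σ (Fin.castAdd 2 i)) ≠ 0 := by
    intro i
    have : σ (Fin.castAdd 2 i) = (e1 i : Fin 5) := by
      change (Equiv.sumCompl (fun i => D i ≠ 0))
        (Sum.map e1 e2 ((finSumFinEquiv (m := 3) (n := 2)).symm (Fin.castAdd 2 i))) = _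
      rw [finSumFinEquiv_symm_apply_castAdd]
      rfl
    rw [this]
    exact (e1 i).2
  have hr : ∀ i : Fin 2, D (σ (Fin.natAdd 3 i)) = 0 := by
    intro i
    have : σ (Fin.natAdd 3 i) = (e2 i : Fin 5) := by
      change (Equiv.sumCompl (fun i => D i ≠ 0))
        (Sum.map e1 e2 ((finSumFinEquiv (m := 3) (n := 2)).symm (Fin.natAdd 3 i))) = _
      rw [finSumFinEquiv_symm_apply_natAdd]
      rfl
    rw [this]
    exact not_not.1 (e2 i).2
  exact ⟨σ, hl 0, hl 1, hl 2, hr 0, hr 1⟩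

lemma exists_normal_form (A : Matrix (Fin 5) (Fin 5) K) (hA : A.rank = 3) :
    ∃ P Q : Matrix (Fin 5) (Fin 5) K, IsUnit P.det ∧ IsUnit Q.det ∧ P * A * Q = E3 K := by
  classical
  obtain ⟨L, L', D, hD⟩ :=
    Matrix.Pivot.exists_list_transvec_mul_mul_list_transvec_eq_diagonal A
  obtain ⟨P, hPdef⟩ : ∃ P, P = (List.map Matrix.TransvectionStruct.toMatrix L).prod := ⟨_, rfl⟩
  obtain ⟨Q, hQdef⟩ : ∃ Q, Q = (List.map Matrix.TransvectionStruct.toMatrix L').prod := ⟨_, rfl⟩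
  have hP : P.det = 1 := by rw [hPdef]; exact Matrix.TransvectionStruct.det_toMatrix_prod L
  have hQ : Q.det = 1 := by rw [hQdef]; exact Matrix.TransvectionStruct.det_toMatrix_prod L'
  rw [← hPdef, ← hQdef] at hD
  have hr1 : (diagonal D).rank = 3 := by
    rw [← hD, Matrix.rank_mul_eq_left_of_isUnit_det _ _ (by rw [hQ]; exact isUnit_one),
      Matrix.rank_mul_eq_right_of_isUnit_det _ _ (by rw [hP]; exact isUnit_one), hA]
  rw [Matrix.rank_diagonal] at hr1
  obtain ⟨σ, s0, s1, s2, s3, s4⟩ := exists_perm (D := D) (by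
    rw [Nat.card_eq_fintype_card]; exact hr1)
  let S : Matrix (Fin 5) (Fin 5) K := diagonal ![(D (σ 0))⁻¹, (D (σ 1))⁻¹, (D (σ 2))⁻¹, 1, 1]
  have hS : IsUnit S.det := by
    rw [isUnit_iff_ne_zero, Matrix.det_diagonal, Fin.prod_univ_five]
    simp [s0, s1, s2]
  have hσ : IsUnit ((1 : Matrix (Fin 5) (Fin 5) K).submatrix σ id).det := by
    rw [Matrix.det_permute, Matrix.det_one, mul_one]
    exact (Units.isUnit _).map (Int.castRingHom K)
  have hσ' : IsUnit ((1 : Matrix (Fin 5) (Fin 5) K).submatrix id σ).det := by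
    rw [Matrix.det_permute', Matrix.det_one, mul_one]
    exact (Units.isUnit _).map (Int.castRingHom K)
  refine ⟨S * (1 : Matrix (Fin 5) (Fin 5) K).submatrix σ id * P,
    Q * (1 : Matrix (Fin 5) (Fin 5) K).submatrix id σ, ?_, ?_, ?_⟩
  · rw [Matrix.det_mul, Matrix.det_mul, hP, mul_one]
    exact hS.mul hσ
  · rw [Matrix.det_mul, hQ, one_mul]
    exact hσ'
  · have h1 : S * (1 : Matrix (Fin 5) (Fin 5) K).submatrix σ id * P * A *
        (Q * (1 : Matrix (Fin 5) (Fin 5) K).submatrix id σ) =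
        S * ((1 : Matrix (Fin 5) (Fin 5) K).submatrix σ id * (P * A * Q) *
          (1 : Matrix (Fin 5) (Fin 5) K).submatrix id σ) := by
      simp only [Matrix.mul_assoc]
    rw [h1, hD]
    have h2 : (1 : Matrix (Fin 5) (Fin 5) K).submatrix σ id * diagonal D *
          (1 : Matrix (Fin 5) (Fin 5) K).submatrix id σ = diagonal (D ∘ σ) := by
      ext i j
      simp [Matrix.mul_apply, Matrix.one_apply, Matrix.diagonal_apply]
      by_cases hij : i = j
      · rw [hij]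
      · rw [if_neg hij, if_neg hij]
    rw [h2, Matrix.diagonal_mul_diagonal]
    unfold E3
    congr 1
    ext i
    fin_cases i
    · simp [s0]
    · simp [s1]
    · simp [s2]
    · simp [s3]
    · simp [s4]

end Pool.Agent.KS6_2.FN
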