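import Mathlib
import Pool.Agent.KS6_2.FN.Types

set_option autoImplicit false

/-!
The eleven-dimensional spaces of `5 × 5` matrices of rank at most three are compression spaces.
-/

namespace Pool.Agent.KS6_2.FN

open Matrix Module

variable {K : Type*} [Field K] [Infinite K]

omit [Infinite K] in
lemma det4 (M : Matrix (Fin 4) (Fin 4) K) : M.det =
    M 0 0 * (M 1 1 * M 2 2 * M 3 3 - M 1 1 * M 2 3 * M 3 2 - M 1 2 * M 2 1 * M 3 3 +
      M 1 2 * M 2 3 * M 3 1 + M 1 3 * M 2 1 * M 3 2 - M 1 3 * M 2 2 * M 3 1) -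
    M 0 1 * (M 1 0 * M 2 2 * M 3 3 - M 1 0 * M 2 3 * M 3 2 - M 1 2 * M 2 0 * M 3 3 +
      M 1 2 * M 2 3 * M 3 0 + M 1 3 * M 2 0 * M 3 2 - M 1 3 * M 2 2 * M 3 0) +
    M 0 2 * (M 1 0 * M 2 1 * M 3 3 - M 1 0 * M 2 3 * M 3 1 - M 1 1 * M 2 0 * M 3 3 +
      M 1 1 * M 2 3 * M 3 0 + M 1 3 * M 2 0 * M 3 1 - M 1 3 * M 2 1 * M 3 0) -
    M 0 3 * (M 1 0 * M 2 1 * M 3 2 - M 1 0 * M 2 2 * M 3 1 - M 1 1 * M 2 0 * M 3 2 +
      M 1 1 * M 2 2 * M 3 0 + M 1 2 * M 2 0 * M 3 1 - M 1 2 * M 2 1 * M 3 0) := by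
  rw [Matrix.det_succ_row_zero, Fin.sum_univ_four]
  simp only [Matrix.det_fin_three, Matrix.submatrix_apply]
  have e1 : (Fin.succ (0 : Fin 3)) = (1 : Fin 4) := rfl
  have e2 : (Fin.succ (1 : Fin 3)) = (2 : Fin 4) := rfl
  have e3 : (Fin.succ (2 : Fin 3)) = (3 : Fin 4) := rfl
  have a00 : Fin.succAbove (0 : Fin 4) (0 : Fin 3) = 1 := rfl
  have a01 : Fin.succAbove (0 : Fin 4) (1 : Fin 3) = 2 := rfl
  have a02 : Fin.succAbove (0 : Fin 4) (2 : Fin 3) = 3 := rfl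
  have a10 : Fin.succAbove (1 : Fin 4) (0 : Fin 3) = 0 := rfl
  have a11 : Fin.succAbove (1 : Fin 4) (1 : Fin 3) = 2 := rfl
  have a12 : Fin.succAbove (1 : Fin 4) (2 : Fin 3) = 3 := rfl
  have a20 : Fin.succAbove (2 : Fin 4) (0 : Fin 3) = 0 := rfl
  have a21 : Fin.succAbove (2 : Fin 4) (1 : Fin 3) = 1 := rfl
  have a22 : Fin.succAbove (2 : Fin 4) (2 : Fin 3) = 3 := rfl
  have a30 : Fin.succAbove (3 : Fin 4) (0 : Fin 3) = 0 := rfl
  have a31 : Fin.succAbove (3 : Fin 4) (1 : Fin 3) = 1 := rfl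
  have a32 : Fin.succAbove (3 : Fin 4) (2 : Fin 3) = 2 := rfl
  have v0 : ((0 : Fin 4) : ℕ) = 0 := rfl
  have v1 : ((1 : Fin 4) : ℕ) = 1 := rfl
  have v2 : ((2 : Fin 4) : ℕ) = 2 := rfl
  have v3 : ((3 : Fin 4) : ℕ) = 3 := rfl
  simp only [e1, e2, e3, a00, a01, a02, a10, a11, a12, a20, a21, a22, a30, a31, a32, v0, v1, v2,
    v3]
  ring

omit [Infinite K] in
lemma sub_entries (B : Matrix (Fin 5) (Fin 5) K) (i j : Fin 5) (hi : i = 3 ∨ i = 4)
    (hj : j = 3 ∨ j = 4) (t : K) :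
    (E3 K + t • B).submatrix ![0, 1, 2, i] ![0, 1, 2, j] =
      !![1 + t * B 0 0, t * B 0 1, t * B 0 2, t * B 0 j;
         t * B 1 0, 1 + t * B 1 1, t * B 1 2, t * B 1 j;
         t * B 2 0, t * B 2 1, 1 + t * B 2 2, t * B 2 j;
         t * B i 0, t * B i 1, t * B i 2, t * B i j] := by
  rcases hi with rfl | rfl <;> rcases hj with rfl | rfl <;>
  · ext a b
    fin_cases a <;> fin_cases b <;> simp [E3, Matrix.diagonal_apply]

/-- the four by four minors containing the leading block, of a line through the standard matrix -/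
lemma minor_expand (B : Matrix (Fin 5) (Fin 5) K) (i j : Fin 5) (hi : i = 3 ∨ i = 4)
    (hj : j = 3 ∨ j = 4) (t : K) :
    ((E3 K + t • B).submatrix ![0, 1, 2, i] ![0, 1, 2, j]).det =
      B i j * t +
      (B i j * (B 0 0 + B 1 1 + B 2 2) -
        (B i 0 * B 0 j + B i 1 * B 1 j + B i 2 * B 2 j)) * t ^ 2 +
      (B i j * (B 0 0 * B 1 1 - B 0 1 * B 1 0 + B 0 0 * B 2 2 - B 0 2 * B 2 0 + B 1 1 * B 2 2 -
          B 1 2 * B 2 1) -
        (B i 0 * ((B 1 1 + B 2 2) * B 0 j - B 0 1 * B 1 j - B 0 2 * B 2 j) +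
          B i 1 * (-B 1 0 * B 0 j + (B 0 0 + B 2 2) * B 1 j - B 1 2 * B 2 j) +
          B i 2 * (-B 2 0 * B 0 j - B 2 1 * B 1 j + (B 0 0 + B 1 1) * B 2 j))) * t ^ 3 +
      (B i j * (B 0 0 * (B 1 1 * B 2 2 - B 1 2 * B 2 1) - B 0 1 * (B 1 0 * B 2 2 - B 1 2 * B 2 0) +
          B 0 2 * (B 1 0 * B 2 1 - B 1 1 * B 2 0)) -
        (B i 0 * ((B 1 1 * B 2 2 - B 1 2 * B 2 1) * B 0 j + (B 0 2 * B 2 1 - B 0 1 * B 2 2) * B 1 j +
            (B 0 1 * B 1 2 - B 0 2 * B 1 1) * B 2 j) +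
          B i 1 * ((B 1 2 * B 2 0 - B 1 0 * B 2 2) * B 0 j + (B 0 0 * B 2 2 - B 0 2 * B 2 0) * B 1 j +
            (B 0 2 * B 1 0 - B 0 0 * B 1 2) * B 2 j) +
          B i 2 * ((B 1 0 * B 2 1 - B 1 1 * B 2 0) * B 0 j + (B 0 1 * B 2 0 - B 0 0 * B 2 1) * B 1 j +
            (B 0 0 * B 1 1 - B 0 1 * B 1 0) * B 2 j))) * t ^ 4 := by
  rw [sub_entries B i j hi hj t, det4]
  simp only [Matrix.of_apply, Matrix.cons_val', Matrix.cons_val_zero, Matrix.cons_val_one,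
    Matrix.cons_val, Matrix.cons_val_fin_one]
  ring

/-- the relations between the blocks -/
lemma block_rels (B : Matrix (Fin 5) (Fin 5) K) (h : ∀ t : K, (E3 K + t • B).rank ≤ 3)
    (i j : Fin 5) (hi : i = 3 ∨ i = 4) (hj : j = 3 ∨ j = 4) :
    B i j = 0 ∧ B i 0 * B 0 j + B i 1 * B 1 j + B i 2 * B 2 j = 0 ∧
    (B i 0 * B 0 0 + B i 1 * B 1 0 + B i 2 * B 2 0) * B 0 j +
      (B i 0 * B 0 1 + B i 1 * B 1 1 + B i 2 * B 2 1) * B 1 j +
      (B i 0 * B 0 2 + B i 1 * B 1 2 + B i 2 * B 2 2) * B 2 j = 0 ∧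
    ((B i 0 * B 0 0 + B i 1 * B 1 0 + B i 2 * B 2 0) * B 0 0 +
      (B i 0 * B 0 1 + B i 1 * B 1 1 + B i 2 * B 2 1) * B 1 0 +
      (B i 0 * B 0 2 + B i 1 * B 1 2 + B i 2 * B 2 2) * B 2 0) * B 0 j +
    ((B i 0 * B 0 0 + B i 1 * B 1 0 + B i 2 * B 2 0) * B 0 1 +
      (B i 0 * B 0 1 + B i 1 * B 1 1 + B i 2 * B 2 1) * B 1 1 +
      (B i 0 * B 0 2 + B i 1 * B 1 2 + B i 2 * B 2 2) * B 2 1) * B 1 j +
    ((B i 0 * B 0 0 + B i 1 * B 1 0 + B i 2 * B 2 0) * B 0 2 +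
      (B i 0 * B 0 1 + B i 1 * B 1 1 + B i 2 * B 2 1) * B 1 2 +
      (B i 0 * B 0 2 + B i 1 * B 1 2 + B i 2 * B 2 2) * B 2 2) * B 2 j = 0 := by
  classical
  have h0 : ∀ t : K, ((E3 K + t • B).submatrix ![0, 1, 2, i] ![0, 1, 2, j]).det = 0 := by
    intro t
    refine det_zero_of_rank _ ((Matrix.rank_submatrix_le _ _ _).trans (h t)) ?_
    simp
  set c1 := B i j with hc1
  set c2 := (B i j * (B 0 0 + B 1 1 + B 2 2) -
        (B i 0 * B 0 j + B i 1 * B 1 j + B i 2 * B 2 j)) with hc2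
  set c3 := (B i j * (B 0 0 * B 1 1 - B 0 1 * B 1 0 + B 0 0 * B 2 2 - B 0 2 * B 2 0 + B 1 1 * B 2 2 -
          B 1 2 * B 2 1) -
        (B i 0 * ((B 1 1 + B 2 2) * B 0 j - B 0 1 * B 1 j - B 0 2 * B 2 j) +
          B i 1 * (-B 1 0 * B 0 j + (B 0 0 + B 2 2) * B 1 j - B 1 2 * B 2 j) +
          B i 2 * (-B 2 0 * B 0 j - B 2 1 * B 1 j + (B 0 0 + B 1 1) * B 2 j))) with hc3
  set c4 := (B i j * (B 0 0 * (B 1 1 * B 2 2 - B 1 2 * B 2 1) - B 0 1 * (B 1 0 * B 2 2 - B 1 2 * B 2 0) +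
          B 0 2 * (B 1 0 * B 2 1 - B 1 1 * B 2 0)) -
        (B i 0 * ((B 1 1 * B 2 2 - B 1 2 * B 2 1) * B 0 j + (B 0 2 * B 2 1 - B 0 1 * B 2 2) * B 1 j +
            (B 0 1 * B 1 2 - B 0 2 * B 1 1) * B 2 j) +
          B i 1 * ((B 1 2 * B 2 0 - B 1 0 * B 2 2) * B 0 j + (B 0 0 * B 2 2 - B 0 2 * B 2 0) * B 1 j +
            (B 0 2 * B 1 0 - B 0 0 * B 1 2) * B 2 j) +
          B i 2 * ((B 1 0 * B 2 1 - B 1 1 * B 2 0) * B 0 j + (B 0 1 * B 2 0 - B 0 0 * B 2 1) * B 1 j +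
            (B 0 0 * B 1 1 - B 0 1 * B 1 0) * B 2 j))) with hc4
  have h1 := coeff_zero_of_forall (n := 5) ![0, c1, c2, c3, c4] (fun t => by
    refine (Eq.trans ?_ (minor_expand B i j hi hj t).symm).trans (h0 t)
    have v : (∑ i : Fin 5, (![0, c1, c2, c3, c4] : Fin 5 → K) i * t ^ (i : ℕ)) =
        c1 * t + c2 * t ^ 2 + c3 * t ^ 3 + c4 * t ^ 4 := by
      rw [Fin.sum_univ_five]
      simp
    rw [v])
  have e1 : c1 = 0 := h1 1
  have e2 : c2 = 0 := h1 2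
  have e3 : c3 = 0 := h1 3
  have e4 : c4 = 0 := h1 4
  rw [hc1] at e1
  rw [hc2, e1] at e2
  rw [hc3, e1] at e3
  rw [hc4, e1] at e4
  have g1 : B i 0 * B 0 j + B i 1 * B 1 j + B i 2 * B 2 j = 0 := by linear_combination -e2
  have g2 : (B i 0 * B 0 0 + B i 1 * B 1 0 + B i 2 * B 2 0) * B 0 j +
      (B i 0 * B 0 1 + B i 1 * B 1 1 + B i 2 * B 2 1) * B 1 j +
      (B i 0 * B 0 2 + B i 1 * B 1 2 + B i 2 * B 2 2) * B 2 j = 0 := by
    linear_combination e3 + (B 0 0 + B 1 1 + B 2 2) * g1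
  refine ⟨e1, g1, g2, ?_⟩
  linear_combination -e4 + (B 0 0 + B 1 1 + B 2 2) * g2 -
    (B 0 0 * B 1 1 - B 0 1 * B 1 0 + B 0 0 * B 2 2 - B 0 2 * B 2 0 + B 1 1 * B 2 2 -
      B 1 2 * B 2 1) * g1

/-- the small index maps -/
def a3 : Fin 3 → Fin 5 := ![0, 1, 2]
/-- the small index maps -/
def a2 : Fin 2 → Fin 5 := ![3, 4]

lemma a2_or (i : Fin 2) : a2 i = 3 ∨ a2 i = 4 := by
  fin_cases i
  · left; rfl
  · right; rfl

/-- the block data of a space containing the standard matrix -/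
def datOf (V : Submodule K (Matrix (Fin 5) (Fin 5) K)) (hE : E3 K ∈ V)
    (hr : ∀ B ∈ V, B.rank ≤ 3) : Dat K V where
  m := { toFun := fun B => Matrix.of fun i j => B.1 (a3 i) (a3 j)
         map_add' := fun _ _ => rfl
         map_smul' := fun _ _ => rfl }
  x := { toFun := fun B => Matrix.of fun i j => B.1 (a2 i) (a3 j)
         map_add' := fun _ _ => rfl
         map_smul' := fun _ _ => rfl }
  y := { toFun := fun B => Matrix.of fun i j => B.1 (a3 i) (a2 j)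
         map_add' := fun _ _ => rfl
         map_smul' := fun _ _ => rfl }
  f1 B := by
    ext i j
    have h := (block_rels B.1 (fun t => hr _ (V.add_mem hE (V.smul_mem t B.2))) (a2 i) (a2 j)
      (a2_or i) (a2_or j)).2.1
    rw [Matrix.mul_apply, Fin.sum_univ_three]
    exact h
  f2 B := by
    ext i j
    have h := (block_rels B.1 (fun t => hr _ (V.add_mem hE (V.smul_mem t B.2))) (a2 i) (a2 j)
      (a2_or i) (a2_or j)).2.2.1
    simp only [Matrix.mul_apply, Fin.sum_univ_three]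
    exact h
  f3 B := by
    ext i j
    have h := (block_rels B.1 (fun t => hr _ (V.add_mem hE (V.smul_mem t B.2))) (a2 i) (a2 j)
      (a2_or i) (a2_or j)).2.2.2
    simp only [Matrix.mul_apply, Fin.sum_univ_three]
    exact h
  inj B h1 h2 h3 := by
    have h4 : ∀ i j : Fin 2, B.1 (a2 i) (a2 j) = 0 := fun i j =>
      (block_rels B.1 (fun t => hr _ (V.add_mem hE (V.smul_mem t B.2))) (a2 i) (a2 j)
        (a2_or i) (a2_or j)).1
    have e1 : ∀ i j : Fin 3, B.1 (a3 i) (a3 j) = 0 := fun i j => congrFun (congrFun h1 i) j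
    have e2 : ∀ (i : Fin 2) (j : Fin 3), B.1 (a2 i) (a3 j) = 0 :=
      fun i j => congrFun (congrFun h2 i) j
    have e3 : ∀ (i : Fin 3) (j : Fin 2), B.1 (a3 i) (a2 j) = 0 :=
      fun i j => congrFun (congrFun h3 i) j
    apply Subtype.ext
    ext i j
    fin_cases i <;> fin_cases j
    · exact e1 0 0
    · exact e1 0 1
    · exact e1 0 2
    · exact e3 0 0
    · exact e3 0 1
    · exact e1 1 0
    · exact e1 1 1
    · exact e1 1 2
    · exact e3 1 0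
    · exact e3 1 1
    · exact e1 2 0
    · exact e1 2 1
    · exact e1 2 2
    · exact e3 2 0
    · exact e3 2 1
    · exact e2 0 0
    · exact e2 0 1
    · exact e2 0 2
    · exact h4 0 0
    · exact h4 0 1
    · exact e2 1 0
    · exact e2 1 1
    · exact e2 1 2
    · exact h4 1 0
    · exact h4 1 1

omit [Infinite K] in
lemma finrank_ker_ge (f : (Fin 5 → K) →ₗ[K] K) : 4 ≤ finrank K (LinearMap.ker f) := by
  have h1 := LinearMap.finrank_range_add_finrank_ker f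
  have h2 : finrank K (LinearMap.range f) ≤ 1 := by
    have := Submodule.finrank_le (LinearMap.range f)
    simpa using this
  have h3 : finrank K (Fin 5 → K) = 5 := by simp
  omega

omit [Infinite K] in
/-- explicit double sum -/
lemma dot_mulVec (B : Matrix (Fin 5) (Fin 5) K) (w u : Fin 5 → K) :
    w ⬝ᵥ (B *ᵥ u) = ∑ i, ∑ j, w i * B i j * u j := by
  simp only [dotProduct, Matrix.mulVec, Finset.mul_sum]
  refine Finset.sum_congr rfl fun i _ => Finset.sum_congr rfl fun j _ => ?_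
  ring

/-- classification in normal form -/
lemma comp_of_E3 (V : Submodule K (Matrix (Fin 5) (Fin 5) K)) (hE : E3 K ∈ V)
    (hr : ∀ B ∈ V, B.rank ≤ 3) (hV : 11 ≤ finrank K V) :
    Comp 5 2 V ∨ Comp 4 3 V ∨ Comp 3 4 V ∨ Comp 2 5 V := by
  have hb : ∀ B ∈ V, ∀ i j : Fin 2, B (a2 i) (a2 j) = 0 := fun B hB i j =>
    (block_rels B (fun t => hr _ (V.add_mem hE (V.smul_mem t hB))) (a2 i) (a2 j)
      (a2_or i) (a2_or j)).1
  have b33 : ∀ B ∈ V, B 3 3 = 0 := fun B hB => hb B hB 0 0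
  have b34 : ∀ B ∈ V, B 3 4 = 0 := fun B hB => hb B hB 0 1
  have b43 : ∀ B ∈ V, B 4 3 = 0 := fun B hB => hb B hB 1 0
  have b44 : ∀ B ∈ V, B 4 4 = 0 := fun B hB => hb B hB 1 1
  -- the subspace of vectors supported in the last two coordinates
  let φ : (Fin 2 → K) →ₗ[K] (Fin 5 → K) :=
    { toFun := fun z => ![0, 0, 0, z 0, z 1]
      map_add' := fun a b => by ext i; fin_cases i <;> simp
      map_smul' := fun a b => by ext i; fin_cases i <;> simp }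
  have hφ : Function.Injective φ := by
    intro a b hab
    ext i
    fin_cases i
    · exact congrFun hab 3
    · exact congrFun hab 4
  have hφr : finrank K (LinearMap.range φ) = 2 := by
    rw [LinearMap.finrank_range_of_inj hφ]; simp
  -- the subspace spanned by a vector and the last two coordinates
  let ψ : (Fin 3 → K) → ((Fin 3 → K) →ₗ[K] (Fin 5 → K)) := fun ρ =>
    { toFun := fun z => ![z 0 * ρ 0, z 0 * ρ 1, z 0 * ρ 2, z 1, z 2]
      map_add' := fun a b => by ext i; fin_cases i <;> simp [add_mul]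
      map_smul' := fun a b => by ext i; fin_cases i <;> simp [mul_assoc] }
  have hψ : ∀ ρ : Fin 3 → K, ρ ≠ 0 → Function.Injective (ψ ρ) := by
    intro ρ hρ a b hab
    obtain ⟨l, hl⟩ := Function.ne_iff.1 hρ
    rw [Pi.zero_apply] at hl
    have h0 : a 0 * ρ 0 = b 0 * ρ 0 := congrFun hab 0
    have h1 : a 0 * ρ 1 = b 0 * ρ 1 := congrFun hab 1
    have h2 : a 0 * ρ 2 = b 0 * ρ 2 := congrFun hab 2
    ext i
    fin_cases i
    · fin_cases l
      · exact mul_right_cancel₀ hl h0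
      · exact mul_right_cancel₀ hl h1
      · exact mul_right_cancel₀ hl h2
    · exact congrFun hab 3
    · exact congrFun hab 4
  have hψr : ∀ ρ : Fin 3 → K, ρ ≠ 0 → finrank K (LinearMap.range (ψ ρ)) = 3 := by
    intro ρ hρ
    rw [LinearMap.finrank_range_of_inj (hψ ρ hρ)]; simp
  let fn : (Fin 3 → K) → ((Fin 5 → K) →ₗ[K] K) := fun ρ =>
    { toFun := fun z => ρ 0 * z 0 + ρ 1 * z 1 + ρ 2 * z 2
      map_add' := fun a b => by simp; ring
      map_smul' := fun a b => by simp; ring }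
  rcases (datOf V hE hr).classify hV with h | h | h | h
  · -- type zero
    left
    refine ⟨⊤, LinearMap.range φ, by simp, hφr.ge, ?_⟩
    rintro B hB u - _ ⟨z, rfl⟩
    have hx : ∀ (i : Fin 2) (j : Fin 3), B (a2 i) (a3 j) = 0 := fun i j =>
      congrFun (congrFun (h ⟨B, hB⟩) i) j
    have x00 : B 3 0 = 0 := hx 0 0
    have x01 : B 3 1 = 0 := hx 0 1
    have x02 : B 3 2 = 0 := hx 0 2
    have x10 : B 4 0 = 0 := hx 1 0
    have x11 : B 4 1 = 0 := hx 1 1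
    have x12 : B 4 2 = 0 := hx 1 2
    rw [dot_mulVec]
    simp [Fin.sum_univ_five, φ, x00, x01, x02, x10, x11, x12, b33 B hB, b34 B hB, b43 B hB,
      b44 B hB]
  · -- type one
    right; left
    obtain ⟨ρ, hρ, hall⟩ := h
    refine ⟨LinearMap.ker (fn ρ), LinearMap.range (ψ ρ), finrank_ker_ge _, (hψr ρ hρ).ge, ?_⟩
    rintro B hB u hu _ ⟨z, rfl⟩
    obtain ⟨⟨s, hs⟩, hy, c, hc⟩ := hall ⟨B, hB⟩
    have hu' : ρ 0 * u 0 + ρ 1 * u 1 + ρ 2 * u 2 = 0 := hu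
    have x0 : ∀ j : Fin 3, B 3 (a3 j) = s 0 * ρ j := fun j => congrFun (congrFun hs 0) j
    have x1 : ∀ j : Fin 3, B 4 (a3 j) = s 1 * ρ j := fun j => congrFun (congrFun hs 1) j
    have y0 : ρ 0 * B 0 3 + ρ 1 * B 1 3 + ρ 2 * B 2 3 = 0 := by
      have := congrFun hy 0
      simpa [Matrix.vecMul, dotProduct, Fin.sum_univ_three, datOf, a3, a2] using this
    have y1 : ρ 0 * B 0 4 + ρ 1 * B 1 4 + ρ 2 * B 2 4 = 0 := by
      have := congrFun hy 1
      simpa [Matrix.vecMul, dotProduct, Fin.sum_univ_three, datOf, a3, a2] using this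
    have m0 : ρ 0 * B 0 0 + ρ 1 * B 1 0 + ρ 2 * B 2 0 = c * ρ 0 := by
      have := congrFun hc 0
      simpa [Matrix.vecMul, dotProduct, Fin.sum_univ_three, datOf, a3, a2] using this
    have m1 : ρ 0 * B 0 1 + ρ 1 * B 1 1 + ρ 2 * B 2 1 = c * ρ 1 := by
      have := congrFun hc 1
      simpa [Matrix.vecMul, dotProduct, Fin.sum_univ_three, datOf, a3, a2] using this
    have m2 : ρ 0 * B 0 2 + ρ 1 * B 1 2 + ρ 2 * B 2 2 = c * ρ 2 := by
      have := congrFun hc 2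
      simpa [Matrix.vecMul, dotProduct, Fin.sum_univ_three, datOf, a3, a2] using this
    have x00 : B 3 0 = s 0 * ρ 0 := x0 0
    have x01 : B 3 1 = s 0 * ρ 1 := x0 1
    have x02 : B 3 2 = s 0 * ρ 2 := x0 2
    have x10 : B 4 0 = s 1 * ρ 0 := x1 0
    have x11 : B 4 1 = s 1 * ρ 1 := x1 1
    have x12 : B 4 2 = s 1 * ρ 2 := x1 2
    rw [dot_mulVec]
    have hψ' : ψ ρ z = ![z 0 * ρ 0, z 0 * ρ 1, z 0 * ρ 2, z 1, z 2] := rfl
    rw [hψ']
    simp only [Fin.sum_univ_five]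
    simp only [Matrix.cons_val_zero, Matrix.cons_val_one, Matrix.cons_val]
    rw [x00, x01, x02, x10, x11, x12, b33 B hB, b34 B hB, b43 B hB, b44 B hB]
    linear_combination z 0 * u 0 * m0 + z 0 * u 1 * m1 + z 0 * u 2 * m2 + z 0 * u 3 * y0 +
      z 0 * u 4 * y1 + (z 0 * c + z 1 * s 0 + z 2 * s 1) * hu'
  · -- type two
    right; right; left
    obtain ⟨η, hη, hall⟩ := h
    refine ⟨LinearMap.range (ψ η), LinearMap.ker (fn η), (hψr η hη).ge, finrank_ker_ge _, ?_⟩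
    rintro B hB _ ⟨z, rfl⟩ w hw
    obtain ⟨⟨s, hs⟩, hx, c, hc⟩ := hall ⟨B, hB⟩
    have hw' : η 0 * w 0 + η 1 * w 1 + η 2 * w 2 = 0 := hw
    have x0 : ∀ j : Fin 3, B (a3 j) 3 = η j * s 0 := fun j => congrFun (congrFun hs j) 0
    have x1 : ∀ j : Fin 3, B (a3 j) 4 = η j * s 1 := fun j => congrFun (congrFun hs j) 1
    have y0 : B 3 0 * η 0 + B 3 1 * η 1 + B 3 2 * η 2 = 0 := by
      have := congrFun hx 0
      simpa [Matrix.mulVec, dotProduct, Fin.sum_univ_three, datOf, a3, a2] using this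
    have y1 : B 4 0 * η 0 + B 4 1 * η 1 + B 4 2 * η 2 = 0 := by
      have := congrFun hx 1
      simpa [Matrix.mulVec, dotProduct, Fin.sum_univ_three, datOf, a3, a2] using this
    have m0 : B 0 0 * η 0 + B 0 1 * η 1 + B 0 2 * η 2 = c * η 0 := by
      have := congrFun hc 0
      simpa [Matrix.mulVec, dotProduct, Fin.sum_univ_three, datOf, a3, a2] using this
    have m1 : B 1 0 * η 0 + B 1 1 * η 1 + B 1 2 * η 2 = c * η 1 := by
      have := congrFun hc 1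
      simpa [Matrix.mulVec, dotProduct, Fin.sum_univ_three, datOf, a3, a2] using this
    have m2 : B 2 0 * η 0 + B 2 1 * η 1 + B 2 2 * η 2 = c * η 2 := by
      have := congrFun hc 2
      simpa [Matrix.mulVec, dotProduct, Fin.sum_univ_three, datOf, a3, a2] using this
    have x00 : B 0 3 = η 0 * s 0 := x0 0
    have x01 : B 1 3 = η 1 * s 0 := x0 1
    have x02 : B 2 3 = η 2 * s 0 := x0 2
    have x10 : B 0 4 = η 0 * s 1 := x1 0
    have x11 : B 1 4 = η 1 * s 1 := x1 1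
    have x12 : B 2 4 = η 2 * s 1 := x1 2
    rw [dot_mulVec]
    have hψ' : ψ η z = ![z 0 * η 0, z 0 * η 1, z 0 * η 2, z 1, z 2] := rfl
    rw [hψ']
    simp only [Fin.sum_univ_five]
    simp only [Matrix.cons_val_zero, Matrix.cons_val_one, Matrix.cons_val]
    rw [x00, x01, x02, x10, x11, x12, b33 B hB, b34 B hB, b43 B hB, b44 B hB]
    linear_combination z 0 * w 0 * m0 + z 0 * w 1 * m1 + z 0 * w 2 * m2 + z 0 * w 3 * y0 +
      z 0 * w 4 * y1 + (z 0 * c + z 1 * s 0 + z 2 * s 1) * hw'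
  · -- type three
    right; right; right
    refine ⟨LinearMap.range φ, ⊤, hφr.ge, by simp, ?_⟩
    rintro B hB _ ⟨z, rfl⟩ w -
    have hx : ∀ (i : Fin 3) (j : Fin 2), B (a3 i) (a2 j) = 0 := fun i j =>
      congrFun (congrFun (h ⟨B, hB⟩) i) j
    have x00 : B 0 3 = 0 := hx 0 0
    have x01 : B 1 3 = 0 := hx 1 0
    have x02 : B 2 3 = 0 := hx 2 0
    have x10 : B 0 4 = 0 := hx 0 1
    have x11 : B 1 4 = 0 := hx 1 1
    have x12 : B 2 4 = 0 := hx 2 1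
    rw [dot_mulVec]
    simp [Fin.sum_univ_five, φ, x00, x01, x02, x10, x11, x12, b33 B hB, b34 B hB, b43 B hB,
      b44 B hB]

/-- **Classification.** The spaces of `5 × 5` matrices of rank at most three, of dimension eleven
or more, are compression spaces. -/
theorem classify5 (V : Submodule K (Matrix (Fin 5) (Fin 5) K))
    (hr : ∀ B ∈ V, B.rank ≤ 3) (hV : 11 ≤ finrank K V) :
    Comp 5 2 V ∨ Comp 4 3 V ∨ Comp 3 4 V ∨ Comp 2 5 V := by
  obtain ⟨A, hA, hA3⟩ : ∃ A ∈ V, A.rank = 3 := by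
    by_contra hcon
    push Not at hcon
    have h2 : ∀ B ∈ V, B.rank ≤ 2 := by
      intro B hB
      have h3 := hr B hB
      have h4 := hcon B hB
      omega
    have := flanders V h2
    omega
  obtain ⟨P, Q, hP, hQ, hPQ⟩ := exists_normal_form A hA3
  have h1 : finrank K (V.map (bim P Q)) = finrank K V :=
    (Submodule.equivMapOfInjective _ (bim_injective hP hQ) V).finrank_eq.symm
  have h2 := comp_of_E3 (V.map (bim P Q)) ⟨A, hA, hPQ⟩ (by
    rintro _ ⟨B, hB, rfl⟩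
    rw [bim_apply]
    exact (Matrix.rank_mul_le_left _ _).trans ((Matrix.rank_mul_le_right _ _).trans (hr B hB)))
    (by rw [h1]; exact hV)
  rcases h2 with h | h | h | h
  · exact Or.inl (h.of_bim hP hQ)
  · exact Or.inr (Or.inl (h.of_bim hP hQ))
  · exact Or.inr (Or.inr (Or.inl (h.of_bim hP hQ)))
  · exact Or.inr (Or.inr (Or.inr (h.of_bim hP hQ)))

end Pool.Agent.KS6_2.FN
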