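import Mathlib
import Pool.Agent.KS6_2.FN.Closed

set_option autoImplicit false

/-!
The decomposition of the Fano scheme.
-/

namespace Pool.Agent.KS6_2.FN

open Matrix Module

variable {K : Type*} [Field K] {n : ℕ}

lemma isClosed_of_closedPred {P : Submodule K (Matrix (Fin 5) (Fin 5) K) → Prop}
    (h : ClosedPred n P) : IsClosed {V : Gr n K | P V.1} := by
  obtain ⟨S, hS⟩ := h
  rw [isClosed_coinduced, isClosed_induced_iff]
  refine ⟨PrimeSpectrum.zeroLocus S, PrimeSpectrum.isClosed_zeroLocus S, ?_⟩
  ext v
  rw [Set.mem_preimage, Set.mem_preimage, PrimeSpectrum.mem_zeroLocus]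
  change S ⊆ (MvPolynomial.vanishingIdeal K {v.1} : Ideal _) ↔ P (spn v.1)
  rw [hS v.1]
  constructor
  · intro h p hp
    have := h hp
    rw [SetLike.mem_coe, MvPolynomial.mem_vanishingIdeal_singleton_iff] at this
    rwa [← MvPolynomial.coe_aeval_eq_eval]
  · intro h p hp
    rw [SetLike.mem_coe, MvPolynomial.mem_vanishingIdeal_singleton_iff]
    have := h p hp
    rwa [← MvPolynomial.coe_aeval_eq_eval] at this

lemma rank_le_of_comp {p q : ℕ} {V : Submodule K (Matrix (Fin 5) (Fin 5) K)} (h : Comp p q V)
    {A : Matrix (Fin 5) (Fin 5) K} (hA : A ∈ V) : A.rank ≤ (5 - p) + (5 - q) := by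
  obtain ⟨U, W, hU, hW, hall⟩ := h
  obtain ⟨U', hUU'⟩ := Submodule.exists_isCompl U
  have h1 := Submodule.finrank_add_eq_of_isCompl hUU'
  have h5 : finrank K (Fin 5 → K) = 5 := by simp
  have h2 : U.map A.mulVecLin ≤ ann W := by
    rintro _ ⟨u, hu, rfl⟩ w hw
    rw [Matrix.mulVecLin_apply, dotProduct_comm]
    exact hall A hA u hu w hw
  have h3 := Submodule.finrank_mono h2
  have h4 := finrank_ann W
  have h6 : finrank K (U'.map A.mulVecLin) ≤ finrank K U' := Submodule.finrank_map_le _ _
  have h7 : LinearMap.range A.mulVecLin = U.map A.mulVecLin ⊔ U'.map A.mulVecLin := by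
    rw [← Submodule.map_sup, hUU'.sup_eq_top, Submodule.map_top]
  have h8 := Submodule.finrank_add_le_finrank_add_finrank (U.map A.mulVecLin) (U'.map A.mulVecLin)
  rw [Matrix.rank, h7]
  omega

/-- the subspace of the matrices supported in given cells -/
noncomputable def cs (K : Type*) [Field K] {n : ℕ} (e : Fin n → Fin 5 × Fin 5)
    (he : Function.Injective e) : Gr n K :=
  ⟨Submodule.span K (Set.range (Matrix.stdBasis K (Fin 5) (Fin 5) ∘ e)), by
    rw [finrank_span_eq_card ((Matrix.stdBasis K (Fin 5) (Fin 5)).linearIndependent.comp _ he),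
      Fintype.card_fin]⟩

lemma comp_cs {p q : ℕ} (e : Fin n → Fin 5 × Fin 5) (he : Function.Injective e)
    (r : Fin q → Fin 5) (c : Fin p → Fin 5) (hr : Function.Injective r) (hc : Function.Injective c)
    (h : ∀ k i j, e k ≠ (r i, c j)) : Comp p q (cs K e he).1 := by
  have hlr : LinearIndependent K ((Pi.basisFun K (Fin 5)) ∘ r) :=
    (Pi.basisFun K (Fin 5)).linearIndependent.comp _ hr
  have hlc : LinearIndependent K ((Pi.basisFun K (Fin 5)) ∘ c) :=
    (Pi.basisFun K (Fin 5)).linearIndependent.comp _ hc
  refine ⟨Submodule.span K (Set.range ((Pi.basisFun K (Fin 5)) ∘ c)),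
    Submodule.span K (Set.range ((Pi.basisFun K (Fin 5)) ∘ r)), ?_, ?_, ?_⟩
  · rw [finrank_span_eq_card hlc, Fintype.card_fin]
  · rw [finrank_span_eq_card hlr, Fintype.card_fin]
  · intro B hB u hu w hw
    induction hB using Submodule.span_induction with
    | mem x hx =>
      obtain ⟨k, rfl⟩ := hx
      induction hw using Submodule.span_induction with
      | mem w hw =>
        obtain ⟨t, rfl⟩ := hw
        induction hu using Submodule.span_induction with
        | mem u hu =>
          obtain ⟨s, rfl⟩ := hu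
          have h2 : Matrix.stdBasis K (Fin 5) (Fin 5) (e k) =
              Matrix.single (e k).1 (e k).2 1 := Matrix.stdBasis_eq_single _ _ _
          simp only [Function.comp_apply, Pi.basisFun_apply]
          rw [h2, Matrix.mulVec_single_one, single_dotProduct, one_mul]
          change Matrix.single (e k).1 (e k).2 (1 : K) (r t) (c s) = 0
          rw [Matrix.single_apply]
          refine if_neg ?_
          rintro ⟨h3, h4⟩
          exact h k t s (Prod.ext h3 h4)
        | zero => rw [Matrix.mulVec_zero, dotProduct_zero]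
        | add x y _ _ hx hy => rw [Matrix.mulVec_add, dotProduct_add, hx, hy, add_zero]
        | smul c x _ hx => rw [Matrix.mulVec_smul, dotProduct_smul, hx, smul_zero]
      | zero => exact zero_dotProduct _
      | add w₁ w₂ _ _ h₁ h₂ => rw [add_dotProduct, h₁, h₂, add_zero]
      | smul c w _ h => rw [smul_dotProduct, h, smul_zero]
    | zero => rw [Matrix.zero_mulVec, dotProduct_zero]
    | add x y _ _ hx hy => rw [Matrix.add_mulVec, dotProduct_add, hx, hy, add_zero]
    | smul c x _ hx => rw [Matrix.smul_mulVec, dotProduct_smul, hx, smul_zero]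

lemma single_mem_cs {e : Fin n → Fin 5 × Fin 5} (he : Function.Injective e) {i j : Fin 5}
    (h : ∃ k, e k = (i, j)) : Matrix.single i j (1 : K) ∈ (cs K e he).1 := by
  obtain ⟨k, hk⟩ := h
  refine Submodule.subset_span ⟨k, ?_⟩
  rw [Function.comp_apply, hk, Matrix.stdBasis_eq_single]

/-- a full block obstructs compression -/
lemma not_comp {p q a b : ℕ} {V : Submodule K (Matrix (Fin 5) (Fin 5) K)}
    (r : Fin b → Fin 5) (c : Fin a → Fin 5) (hr : Function.Injective r) (hc : Function.Injective c)
    (h : ∀ i j, Matrix.single (r i) (c j) (1 : K) ∈ V) (hp : 5 < p + a) (hq : 5 < q + b) :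
    ¬ Comp p q V := by
  rintro ⟨U, W, hU, hW, hall⟩
  have hlr : LinearIndependent K ((Pi.basisFun K (Fin 5)) ∘ r) :=
    (Pi.basisFun K (Fin 5)).linearIndependent.comp _ hr
  have hlc : LinearIndependent K ((Pi.basisFun K (Fin 5)) ∘ c) :=
    (Pi.basisFun K (Fin 5)).linearIndependent.comp _ hc
  have key : ∀ {m : ℕ} (f : Fin m → Fin 5) (X : Submodule K (Fin 5 → K)),
      LinearIndependent K ((Pi.basisFun K (Fin 5)) ∘ f) → (∀ x ∈ X, ∀ i, x (f i) = 0) →
      finrank K X + m ≤ 5 := by
    intro m f X hf hX
    have h1 := finrank_ann (Submodule.span K (Set.range ((Pi.basisFun K (Fin 5)) ∘ f)))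
    rw [finrank_span_eq_card hf, Fintype.card_fin] at h1
    have h2 : X ≤ ann (Submodule.span K (Set.range ((Pi.basisFun K (Fin 5)) ∘ f))) := by
      intro x hx u hu
      induction hu using Submodule.span_induction with
      | mem u hu =>
        obtain ⟨i, rfl⟩ := hu
        rw [Function.comp_apply, Pi.basisFun_apply, dotProduct_single, mul_one]
        exact hX x hx i
      | zero => exact dotProduct_zero _
      | add x y _ _ hx hy => rw [dotProduct_add, hx, hy, add_zero]
      | smul c x _ hx => rw [dotProduct_smul, hx, smul_zero]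
    have h3 := Submodule.finrank_mono h2
    omega
  have h1 : ∃ w ∈ W, ∃ i, w (r i) ≠ 0 := by
    by_contra hcon
    push Not at hcon
    have := key r W hlr hcon
    omega
  obtain ⟨w, hw, i, hi⟩ := h1
  have := key c U hlc (fun u hu j => by
    have h2 := hall _ (h i j) u hu w hw
    rw [Matrix.single_mulVec, one_mul] at h2
    have h3 : w (r i) * u (c j) = 0 := by
      rw [← h2, ← Pi.single, dotProduct_single]
    exact (mul_eq_zero.1 h3).resolve_left hi)
  omega

lemma compr_subset {p q : ℕ} (h : (5 - p) + (5 - q) ≤ 3) :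
    {V : Gr n K | Comp p q V.1} ⊆ Fano n K := by
  intro V hV A hA
  rw [← rank_le_iff_minors]
  exact (rank_le_of_comp hV hA).trans h

theorem fano_eq [IsAlgClosed K] (hn : 11 ≤ n) :
    Fano n K = {V : Gr n K | Comp 5 2 V.1} ∪ {V | Comp 4 3 V.1} ∪ {V | Comp 3 4 V.1} ∪
      {V | Comp 2 5 V.1} := by
  have hinf : Infinite K := IsAlgClosed.instInfinite
  ext V
  constructor
  · intro h
    have h1 := classify5 V.1 (fun A hA => (rank_le_iff_minors A).2 (h A hA)) (by rw [V.2]; exact hn)
    rcases h1 with h | h | h | h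
    · exact Or.inl (Or.inl (Or.inl h))
    · exact Or.inl (Or.inl (Or.inr h))
    · exact Or.inl (Or.inr h)
    · exact Or.inr h
  · rintro (((h | h) | h) | h)
    · exact compr_subset (by norm_num) h
    · exact compr_subset (by norm_num) h
    · exact compr_subset (by norm_num) h
    · exact compr_subset (by norm_num) h

end Pool.Agent.KS6_2.FN
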