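import Mathlib
import Pool.Agent.KS6_2.FN.Final

set_option autoImplicit false

/-!
The families of compression spaces are irreducible.
-/

namespace Pool.Agent.KS6_2.FN

open Matrix Module Polynomial

variable {K : Type*} [Field K] {n : ℕ}

/-- an adapted basis -/
lemma exists_cols {p : ℕ} (U : Submodule K (Fin 5 → K)) (hU : p ≤ finrank K U) :
    ∃ w : Fin 5 → (Fin 5 → K), LinearIndependent K w ∧ ∀ i : Fin 5, i.val < p → w i ∈ U := by
  let S : Fin 5 → Submodule K (Fin 5 → K) := fun i => if i.val < p then U else ⊤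
  have hS1 : ∀ i : Fin 5, i.val < p → S i = U := fun i h => if_pos h
  have hS2 : ∀ i : Fin 5, ¬ i.val < p → S i = ⊤ := fun i h => if_neg h
  obtain ⟨w, hw, hwS⟩ := exists_adapted 5 S (by
    intro i
    by_cases h : i.val < p
    · rw [hS1 i h]
      omega
    · have : finrank K (⊤ : Submodule K (Fin 5 → K)) = 5 := by simp
      rw [hS2 i h, this]
      exact i.2)
  exact ⟨w, hw, fun i hi => by
    have := hwS i
    rwa [hS1 i hi] at this⟩

/-- the entries in the first `q` rows and the first `p` columns vanish -/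
def Blk (p q : ℕ) (M : Matrix (Fin 5) (Fin 5) K) : Prop :=
  ∀ i j : Fin 5, i.val < q → j.val < p → M i j = 0

lemma span_basis (V : Submodule K (Matrix (Fin 5) (Fin 5) K)) (b : Basis (Fin n) K V) :
    Submodule.span K (Set.range fun k => (b k : Matrix (Fin 5) (Fin 5) K)) = V := by
  have h1 : (Set.range fun k => (b k : Matrix (Fin 5) (Fin 5) K)) = V.subtype '' Set.range b := by
    rw [← Set.range_comp]
    rfl
  rw [h1, Submodule.span_image, b.span_eq, Submodule.map_top, Submodule.range_subtype]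

lemma exists_param {p q : ℕ} {V : Gr n K} (h : Comp p q V.1) :
    ∃ (P Q : Matrix (Fin 5) (Fin 5) K) (M : Fin n → Matrix (Fin 5) (Fin 5) K) (v : Frames n K),
      P.det ≠ 0 ∧ Q.det ≠ 0 ∧ (∀ k, Blk p q (M k)) ∧ toGr v = V ∧ ∀ k, mats v.1 k = P * M k * Q := by
  obtain ⟨U, W, hU, hW, hall⟩ := h
  obtain ⟨u, hu, huU⟩ := exists_cols U hU
  obtain ⟨w, hw, hwW⟩ := exists_cols W hW
  let b : Basis (Fin n) K V.1 := finBasisOfFinrankEq K V.1 V.2
  have hmats : mats (fun idx : (Idx n) => (b idx.1 : Matrix (Fin 5) (Fin 5) K) idx.2.1 idx.2.2) =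
      fun k => (b k : Matrix (Fin 5) (Fin 5) K) := by
    funext k
    ext i j
    rfl
  have hli : LinearIndependent K (mats (fun idx : (Idx n) => (b idx.1 : Matrix (Fin 5) (Fin 5) K) idx.2.1
      idx.2.2)) := by
    rw [hmats]
    exact b.linearIndependent.map' V.1.subtype (Submodule.ker_subtype _)
  have hA : IsUnit (Matrix.of w) := Matrix.linearIndependent_rows_iff_isUnit.1 hw
  have hB : IsUnit (Matrix.of u)ᵀ :=
    (Matrix.isUnit_transpose _).2 (Matrix.linearIndependent_rows_iff_isUnit.1 hu)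
  have hAd : IsUnit (Matrix.of w).det := (Matrix.isUnit_iff_isUnit_det _).1 hA
  have hBd : IsUnit ((Matrix.of u)ᵀ).det := (Matrix.isUnit_iff_isUnit_det _).1 hB
  refine ⟨(Matrix.of w)⁻¹, ((Matrix.of u)ᵀ)⁻¹,
    fun k => Matrix.of w * (b k : Matrix (Fin 5) (Fin 5) K) * (Matrix.of u)ᵀ, ⟨_, hli⟩, ?_, ?_, ?_, ?_, ?_⟩
  · exact (Matrix.isUnit_nonsing_inv_det _ hAd).ne_zero
  · exact (Matrix.isUnit_nonsing_inv_det _ hBd).ne_zero
  · intro k i j hi hj
    have := hall (b k) (b k).2 (u j) (huU j hj) (w i) (hwW i hi)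
    change (Matrix.of w * (b k : Matrix (Fin 5) (Fin 5) K) * (Matrix.of u)ᵀ) i j = 0
    rw [← this, Matrix.mul_assoc, Matrix.mul_apply']
    rfl
  · apply Subtype.ext
    change Submodule.span K (Set.range (mats _)) = V.1
    rw [hmats, span_basis]
  · intro k
    rw [hmats]
    simp only
    rw [← Matrix.mul_assoc, ← Matrix.mul_assoc, Matrix.nonsing_inv_mul _ hAd, Matrix.one_mul,
      Matrix.mul_assoc, Matrix.mul_nonsing_inv _ hBd, Matrix.mul_one]

/-- the vectors supported in the first `p` coordinates -/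
def fst (K : Type*) [Field K] (p : ℕ) : Submodule K (Fin 5 → K) where
  carrier := {u | ∀ j : Fin 5, p ≤ j.val → u j = 0}
  add_mem' := by
    intro a b ha hb j hj
    rw [Pi.add_apply, ha j hj, hb j hj, add_zero]
  zero_mem' := fun _ _ => rfl
  smul_mem' := by
    intro c a ha j hj
    rw [Pi.smul_apply, ha j hj, smul_zero]

lemma finrank_fst {p : ℕ} (hp : p ≤ 5) : p ≤ finrank K (fst K p) := by
  have hli : LinearIndependent K ((Pi.basisFun K (Fin 5)) ∘ Fin.castLE hp) :=
    (Pi.basisFun K (Fin 5)).linearIndependent.comp _ (Fin.castLE_injective hp)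
  have h1 : Submodule.span K (Set.range ((Pi.basisFun K (Fin 5)) ∘ Fin.castLE hp)) ≤ fst K p := by
    rw [Submodule.span_le]
    rintro _ ⟨i, rfl⟩ j hj
    simp only [Function.comp_apply, Pi.basisFun_apply]
    refine Pi.single_eq_of_ne ?_ _
    intro h
    rw [h, Fin.val_castLE] at hj
    have := i.2
    omega
  have h2 := Submodule.finrank_mono h1
  rwa [finrank_span_eq_card hli, Fintype.card_fin] at h2

lemma comp_of_blk {p q : ℕ} (hp : p ≤ 5) (hq : q ≤ 5) {M : Fin n → Matrix (Fin 5) (Fin 5) K}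
    (hM : ∀ k, Blk p q (M k)) : Comp p q (Submodule.span K (Set.range M)) := by
  refine ⟨fst K p, fst K q, finrank_fst hp, finrank_fst hq, fun B hB u hu w hw => ?_⟩
  have hB' : Blk p q B := by
    induction hB using Submodule.span_induction with
    | mem x hx =>
      obtain ⟨k, rfl⟩ := hx
      exact hM k
    | zero => exact fun _ _ _ _ => rfl
    | add x y _ _ hx hy =>
      intro i j hi hj
      rw [Matrix.add_apply, hx i j hi hj, hy i j hi hj, add_zero]
    | smul c x _ hx =>
      intro i j hi hj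
      rw [Matrix.smul_apply, hx i j hi hj, smul_zero]
  refine Finset.sum_eq_zero fun i _ => ?_
  by_cases hi : i.val < q
  · have : (B *ᵥ u) i = 0 := by
      change ∑ j, B i j * u j = 0
      refine Finset.sum_eq_zero fun j _ => ?_
      by_cases hj : j.val < p
      · rw [hB' i j hi hj, zero_mul]
      · rw [hu j (by omega), mul_zero]
    rw [this, mul_zero]
  · rw [hw i (by omega), zero_mul]

lemma comp_of_param {p q : ℕ} (hp : p ≤ 5) (hq : q ≤ 5) {M : Fin n → Matrix (Fin 5) (Fin 5) K}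
    (hM : ∀ k, Blk p q (M k)) {P Q : Matrix (Fin 5) (Fin 5) K} (hP : P.det ≠ 0) (hQ : Q.det ≠ 0) :
    Comp p q (Submodule.span K (Set.range fun k => P * M k * Q)) := by
  have hP' : IsUnit P.det := isUnit_iff_ne_zero.2 hP
  have hQ' : IsUnit Q.det := isUnit_iff_ne_zero.2 hQ
  refine Comp.of_bim (P := P⁻¹) (Q := Q⁻¹) (Matrix.isUnit_nonsing_inv_det _ hP')
    (Matrix.isUnit_nonsing_inv_det _ hQ') ?_
  have : (Submodule.span K (Set.range fun k => P * M k * Q)).map (bim P⁻¹ Q⁻¹) =
      Submodule.span K (Set.range M) := by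
    rw [Submodule.map_span, ← Set.range_comp]
    congr 2
    funext k
    rw [Function.comp_apply, bim_apply, ← Matrix.mul_assoc, ← Matrix.mul_assoc,
      Matrix.nonsing_inv_mul _ hP', Matrix.one_mul, Matrix.mul_assoc, Matrix.mul_nonsing_inv _ hQ',
      Matrix.mul_one]
  rw [this]
  exact comp_of_blk hp hq hM

/-- linear independence is an open condition -/
lemma exists_detPoly {v : Idx n → K} (h : LinearIndependent K (mats v)) :
    ∃ D : MvPolynomial (Idx n) K, MvPolynomial.eval v D ≠ 0 ∧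
      ∀ w : Idx n → K, MvPolynomial.eval w D ≠ 0 → LinearIndependent K (mats w) := by
  obtain ⟨g, hg⟩ := LinearMap.exists_leftInverse_of_injective (Fintype.linearCombination K (mats v))
    (LinearMap.ker_eq_bot.2 (linearIndependent_iff_injective_fintypeLinearCombination.1 h))
  have hgk : ∀ k, g (mats v k) = Pi.single k 1 := by
    intro k
    have h1 := LinearMap.congr_fun hg (Pi.single k 1)
    rw [LinearMap.comp_apply, LinearMap.id_apply] at h1
    rw [← h1]
    congr 1
    rw [Fintype.linearCombination_apply, Finset.sum_eq_single k]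
    · simp
    · intro j _ hj
      simp [Pi.single_apply, hj]
    · intro h
      exact absurd (Finset.mem_univ _) h
  let D : MvPolynomial (Idx n) K := Matrix.det (Matrix.of fun k l : Fin n =>
    ∑ i : Fin 5, ∑ j : Fin 5, MvPolynomial.C (g (Matrix.single i j 1) l) * MvPolynomial.X (k, i, j))
  have hD : ∀ w : Idx n → K, MvPolynomial.eval w D = Matrix.det (Matrix.of fun k => g (mats w k)) := by
    intro w
    change (MvPolynomial.eval w) (Matrix.det _) = _
    rw [RingHom.map_det]
    congr 1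
    ext k l
    simp only [RingHom.mapMatrix_apply, Matrix.map_apply, Matrix.of_apply, map_sum, map_mul,
      MvPolynomial.eval_C, MvPolynomial.eval_X]
    conv_rhs => rw [Matrix.matrix_eq_sum_single (mats w k)]
    simp only [map_sum, Finset.sum_apply]
    refine Finset.sum_congr rfl fun i _ => Finset.sum_congr rfl fun j _ => ?_
    have : Matrix.single i j (mats w k i j) = (mats w k i j) • Matrix.single i j (1 : K) := by
      rw [Matrix.smul_single, smul_eq_mul, mul_one]
    rw [this, map_smul, Pi.smul_apply, smul_eq_mul, mul_comm]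
    rfl
  refine ⟨D, ?_, fun w hw => ?_⟩
  · rw [hD]
    have : (Matrix.of fun k => g (mats v k)) = 1 := by
      ext k l
      rw [Matrix.of_apply, hgk, Matrix.one_apply, Pi.single_apply]
      congr 1
      exact propext ⟨fun h => h.symm, fun h => h.symm⟩
    rw [this, Matrix.det_one]
    exact one_ne_zero
  · rw [hD] at hw
    have h1 := Matrix.linearIndependent_rows_of_det_ne_zero hw
    exact LinearIndependent.of_comp g h1

/-- the line through two matrices -/
noncomputable def lin (A B : Matrix (Fin 5) (Fin 5) K) : Matrix (Fin 5) (Fin 5) K[X] :=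
  Matrix.of fun i j => C (A i j) + X * C (B i j - A i j)

lemma lin_eval (A B : Matrix (Fin 5) (Fin 5) K) (s : K) :
    (evalRingHom s).mapMatrix (lin A B) = A + s • (B - A) := by
  ext i j
  simp [lin]

lemma det_lin_eval (A B : Matrix (Fin 5) (Fin 5) K) (s : K) :
    (lin A B).det.eval s = (A + s • (B - A)).det := by
  rw [← lin_eval, ← RingHom.map_det]
  rfl

lemma Blk.line {p q : ℕ} {A B : Matrix (Fin 5) (Fin 5) K} (hA : Blk p q A) (hB : Blk p q B) (s : K) :
    Blk p q (A + s • (B - A)) := by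
  intro i j hi hj
  simp [hA i j hi hj, hB i j hi hj]

lemma eval_aeval (pv : Idx n → K[X]) (f : MvPolynomial (Idx n) K) (s : K) :
    (MvPolynomial.aeval pv f).eval s = MvPolynomial.eval (fun i => (pv i).eval s) f := by
  have : ((evalRingHom s).comp (MvPolynomial.aeval pv).toRingHom) =
      MvPolynomial.eval (fun i => (pv i).eval s) := by
    refine MvPolynomial.ringHom_ext (fun a => ?_) (fun i => ?_)
    · simp
    · simp
  exact RingHom.congr_fun this f

/-- open sets of the Grassmannian -/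
lemma isOpen_gr {U : Set (Gr n K)} (hU : IsOpen U) :
    ∃ S : Set (MvPolynomial (Idx n) K), ∀ v : Frames n K, toGr v ∈ U ↔ ∃ f ∈ S, MvPolynomial.eval v.1 f ≠ 0 := by
  rw [isOpen_coinduced, isOpen_induced_iff] at hU
  obtain ⟨O, hO, hOU⟩ := hU
  obtain ⟨S, hS⟩ := PrimeSpectrum.isOpen_iff O |>.1 hO
  refine ⟨S, fun v => ?_⟩
  have h1 : toGr v ∈ U ↔ (MvPolynomial.pointToPoint v.1 : PrimeSpectrum (MvPolynomial (Idx n) K)) ∈ O := by
    have := Set.ext_iff.1 hOU v
    exact this.symm
  have h2 : (MvPolynomial.pointToPoint v.1 : PrimeSpectrum (MvPolynomial (Idx n) K)) ∉ O ↔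
      ∀ f ∈ S, MvPolynomial.eval v.1 f = 0 := by
    rw [← Set.mem_compl_iff, hS, PrimeSpectrum.mem_zeroLocus]
    change S ⊆ (MvPolynomial.vanishingIdeal K {v.1} : Ideal _) ↔ _
    constructor
    · intro h p hp
      have := h hp
      rw [SetLike.mem_coe, MvPolynomial.mem_vanishingIdeal_singleton_iff] at this
      rwa [← MvPolynomial.coe_aeval_eq_eval]
    · intro h p hp
      rw [SetLike.mem_coe, MvPolynomial.mem_vanishingIdeal_singleton_iff]
      have := h p hp
      rwa [← MvPolynomial.coe_aeval_eq_eval] at this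
  rw [h1, ← not_iff_not, h2]
  push Not
  rfl

/-- **The family of the compression spaces of one type is irreducible.** -/
theorem isPreirreducible_comp [Infinite K] {p q : ℕ} (hp : p ≤ 5) (hq : q ≤ 5) :
    IsPreirreducible {V : Gr n K | Comp p q V.1} := by
  rintro U U' hU hU' ⟨V1, hV1, hV1U⟩ ⟨V2, hV2, hV2U⟩
  obtain ⟨P1, Q1, M1, v1, hP1, hQ1, hM1, hv1, hm1⟩ := exists_param hV1
  obtain ⟨P2, Q2, M2, v2, hP2, hQ2, hM2, hv2, hm2⟩ := exists_param hV2
  obtain ⟨S, hS⟩ := isOpen_gr hU
  obtain ⟨S', hS'⟩ := isOpen_gr hU'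
  obtain ⟨f, hfS, hf⟩ := (hS v1).1 (by rw [hv1]; exact hV1U)
  obtain ⟨g, hgS, hg⟩ := (hS' v2).1 (by rw [hv2]; exact hV2U)
  obtain ⟨D, hD1, hD2⟩ := exists_detPoly v1.2
  let pv : Idx n → K[X] := fun idx => (lin P1 P2 * lin (M1 idx.1) (M2 idx.1) * lin Q1 Q2) idx.2.1 idx.2.2
  have hpv : ∀ s : K, ∀ k, mats (fun i => (pv i).eval s) k =
      (P1 + s • (P2 - P1)) * (M1 k + s • (M2 k - M1 k)) * (Q1 + s • (Q2 - Q1)) := by
    intro s k
    rw [← lin_eval, ← lin_eval, ← lin_eval, ← map_mul, ← map_mul]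
    ext i j
    rfl
  have h0 : (fun i => (pv i).eval 0) = v1.1 := by
    funext idx
    have h1 := congrFun (congrFun (hpv 0 idx.1) idx.2.1) idx.2.2
    have h2 := congrFun (congrFun (hm1 idx.1) idx.2.1) idx.2.2
    simp only [zero_smul, add_zero] at h1
    rw [← h2] at h1
    exact h1
  have h1' : (fun i => (pv i).eval 1) = v2.1 := by
    funext idx
    have h1 := congrFun (congrFun (hpv 1 idx.1) idx.2.1) idx.2.2
    have h2 := congrFun (congrFun (hm2 idx.1) idx.2.1) idx.2.2
    simp only [one_smul, add_sub_cancel] at h1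
    rw [← h2] at h1
    exact h1
  have hne : ∀ {F : K[X]} (s : K), F.eval s ≠ 0 → F ≠ 0 := by
    intro F s h hF
    rw [hF, eval_zero] at h
    exact h rfl
  have hF1 : MvPolynomial.aeval pv f ≠ 0 := hne 0 (by rw [eval_aeval, h0]; exact hf)
  have hF2 : MvPolynomial.aeval pv g ≠ 0 := hne 1 (by rw [eval_aeval, h1']; exact hg)
  have hF3 : MvPolynomial.aeval pv D ≠ 0 := hne 0 (by rw [eval_aeval, h0]; exact hD1)
  have hF4 : (lin P1 P2).det ≠ 0 := hne 0 (by rw [det_lin_eval]; simpa using hP1)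
  have hF5 : (lin Q1 Q2).det ≠ 0 := hne 0 (by rw [det_lin_eval]; simpa using hQ1)
  have hG : MvPolynomial.aeval pv f * MvPolynomial.aeval pv g * MvPolynomial.aeval pv D *
      (lin P1 P2).det * (lin Q1 Q2).det ≠ 0 :=
    mul_ne_zero (mul_ne_zero (mul_ne_zero (mul_ne_zero hF1 hF2) hF3) hF4) hF5
  obtain ⟨s, hs⟩ : ∃ s : K, (MvPolynomial.aeval pv f * MvPolynomial.aeval pv g *
      MvPolynomial.aeval pv D * (lin P1 P2).det * (lin Q1 Q2).det).eval s ≠ 0 := by
    by_contra hcon
    push Not at hcon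
    exact hG (Polynomial.funext (fun r => by rw [hcon r, eval_zero]))
  simp only [eval_mul, eval_aeval, det_lin_eval, mul_ne_zero_iff] at hs
  obtain ⟨⟨⟨⟨hs1, hs2⟩, hs3⟩, hs4⟩, hs5⟩ := hs
  have hli := hD2 _ hs3
  refine ⟨toGr ⟨fun i => (pv i).eval s, hli⟩, ?_, (hS _).2 ⟨f, hfS, hs1⟩, (hS' _).2 ⟨g, hgS, hs2⟩⟩
  change Comp p q (Submodule.span K (Set.range (mats _)))
  have : (mats fun i => (pv i).eval s) = fun k =>
      (P1 + s • (P2 - P1)) * (M1 k + s • (M2 k - M1 k)) * (Q1 + s • (Q2 - Q1)) :=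
    funext fun k => hpv s k
  rw [this]
  exact comp_of_param hp hq (fun k => (hM1 k).line (hM2 k) s) hs4 hs5

end Pool.Agent.KS6_2.FN
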