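import Mathlib
import Pool.Agent.KS6_2.FN.Irr

set_option autoImplicit false

/-!
Dimension bounds for compression spaces.
-/

namespace Pool.Agent.KS6_2.FN

open Matrix Module

variable {K : Type*} [Field K] {n : ℕ}

lemma dim_le {V : Submodule K (Matrix (Fin 5) (Fin 5) K)}
    (S₀ S₁ S₂ S₃ S₄ U₀ U₁ U₂ U₃ U₄ : Submodule K (Fin 5 → K))
    (h₀ : 1 ≤ finrank K S₀) (h₁ : 2 ≤ finrank K S₁) (h₂ : 3 ≤ finrank K S₂)
    (h₃ : 4 ≤ finrank K S₃) (h₄ : 5 ≤ finrank K S₄)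
    (g₀ : ∀ B ∈ V, ∀ u ∈ U₀, ∀ w ∈ S₀, w ⬝ᵥ (B *ᵥ u) = 0)
    (g₁ : ∀ B ∈ V, ∀ u ∈ U₁, ∀ w ∈ S₁, w ⬝ᵥ (B *ᵥ u) = 0)
    (g₂ : ∀ B ∈ V, ∀ u ∈ U₂, ∀ w ∈ S₂, w ⬝ᵥ (B *ᵥ u) = 0)
    (g₃ : ∀ B ∈ V, ∀ u ∈ U₃, ∀ w ∈ S₃, w ⬝ᵥ (B *ᵥ u) = 0)
    (g₄ : ∀ B ∈ V, ∀ u ∈ U₄, ∀ w ∈ S₄, w ⬝ᵥ (B *ᵥ u) = 0) :
    finrank K V ≤ (5 - finrank K U₀) + (5 - finrank K U₁) + (5 - finrank K U₂) +
      (5 - finrank K U₃) + (5 - finrank K U₄) := by
  obtain ⟨w, hw, w0, w1, w2, w3, w4⟩ := exists_adapted5 S₀ S₁ S₂ S₃ S₄ h₀ h₁ h₂ h₃ h₄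
  have := finrank_le_of_adapted V w hw ![U₀, U₁, U₂, U₃, U₄] (by
    intro B hB i u hu
    fin_cases i
    · exact g₀ B hB u hu _ w0
    · exact g₁ B hB u hu _ w1
    · exact g₂ B hB u hu _ w2
    · exact g₃ B hB u hu _ w3
    · exact g₄ B hB u hu _ w4)
  rw [Fin.sum_univ_five] at this
  exact this

lemma finrank_top5 : finrank K (⊤ : Submodule K (Fin 5 → K)) = 5 := by simp

lemma bot_zero {V : Submodule K (Matrix (Fin 5) (Fin 5) K)} (S : Submodule K (Fin 5 → K)) :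
    ∀ B ∈ V, ∀ u ∈ (⊥ : Submodule K (Fin 5 → K)), ∀ w ∈ S, w ⬝ᵥ (B *ᵥ u) = 0 := by
  intro B _ u hu w _
  have : u = 0 := hu
  rw [this, Matrix.mulVec_zero, dotProduct_zero]

lemma dim52 {V : Submodule K (Matrix (Fin 5) (Fin 5) K)} (h : Comp 5 2 V) : finrank K V ≤ 15 := by
  obtain ⟨U, W, hU, hW, h⟩ := h
  have ht := finrank_top5 (K := K)
  have := dim_le W W ⊤ ⊤ ⊤ U U ⊥ ⊥ ⊥ (by omega) (by omega) (by omega) (by omega) (by omega)
    h h (bot_zero _) (bot_zero _) (bot_zero _)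
  have hb : finrank K (⊥ : Submodule K (Fin 5 → K)) = 0 := finrank_bot _ _
  omega

lemma dim43 {V : Submodule K (Matrix (Fin 5) (Fin 5) K)} (h : Comp 4 3 V) : finrank K V ≤ 13 := by
  obtain ⟨U, W, hU, hW, h⟩ := h
  have ht := finrank_top5 (K := K)
  have := dim_le W W W ⊤ ⊤ U U U ⊥ ⊥ (by omega) (by omega) (by omega) (by omega) (by omega)
    h h h (bot_zero _) (bot_zero _)
  have hb : finrank K (⊥ : Submodule K (Fin 5 → K)) = 0 := finrank_bot _ _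
  omega

lemma dim34 {V : Submodule K (Matrix (Fin 5) (Fin 5) K)} (h : Comp 3 4 V) : finrank K V ≤ 13 := by
  obtain ⟨U, W, hU, hW, h⟩ := h
  have ht := finrank_top5 (K := K)
  have := dim_le W W W W ⊤ U U U U ⊥ (by omega) (by omega) (by omega) (by omega) (by omega)
    h h h h (bot_zero _)
  have hb : finrank K (⊥ : Submodule K (Fin 5 → K)) = 0 := finrank_bot _ _
  omega

lemma dim25 {V : Submodule K (Matrix (Fin 5) (Fin 5) K)} (h : Comp 2 5 V) : finrank K V ≤ 15 := by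
  obtain ⟨U, W, hU, hW, h⟩ := h
  have := dim_le W W W W W U U U U U (by omega) (by omega) (by omega) (by omega) (by omega)
    h h h h h
  omega

lemma dim52_43 {V : Submodule K (Matrix (Fin 5) (Fin 5) K)} (h : Comp 5 2 V) (h' : Comp 4 3 V) :
    finrank K V ≤ 11 := by
  obtain ⟨U, W, hU, hW, h⟩ := h
  obtain ⟨U', W', hU', hW', h'⟩ := h'
  have ht := finrank_top5 (K := K)
  have := dim_le W W W' ⊤ ⊤ U U U' ⊥ ⊥ (by omega) (by omega) (by omega) (by omega) (by omega)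
    h h h' (bot_zero _) (bot_zero _)
  have hb : finrank K (⊥ : Submodule K (Fin 5 → K)) = 0 := finrank_bot _ _
  omega

lemma dim34_25 {V : Submodule K (Matrix (Fin 5) (Fin 5) K)} (h : Comp 3 4 V) (h' : Comp 2 5 V) :
    finrank K V ≤ 11 := by
  obtain ⟨U, W, hU, hW, h⟩ := h
  obtain ⟨U', W', hU', hW', h'⟩ := h'
  have := dim_le W W W W W' U U U U U' (by omega) (by omega) (by omega) (by omega) (by omega)
    h h h h h'
  omega

end Pool.Agent.KS6_2.FN
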