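import Mathlib

set_option autoImplicit false

/-!
General topology: counting connected and irreducible components.
-/

namespace Pool.Agent.KS6_2.FN

variable {X : Type*} [TopologicalSpace X]

theorem card_connectedComponents {m : ℕ} (Z : Fin m → Set X) (hcl : ∀ i, IsClosed (Z i))
    (hco : ∀ i, IsConnected (Z i)) (hdis : ∀ i j, i ≠ j → Disjoint (Z i) (Z j))
    (hcov : ∀ x, ∃ i, x ∈ Z i) : Nat.card (ConnectedComponents X) = m := by
  have hclopen : ∀ i, IsClopen (Z i) := by
    intro i
    refine ⟨hcl i, ?_⟩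
    have h1 : (Z i)ᶜ = ⋃ j ∈ {j : Fin m | j ≠ i}, Z j := by
      ext x
      simp only [Set.mem_compl_iff, Set.mem_setOf_eq, Set.mem_iUnion, exists_prop]
      constructor
      · intro hx
        obtain ⟨j, hj⟩ := hcov x
        exact ⟨j, fun h => hx (h ▸ hj), hj⟩
      · rintro ⟨j, hji, hj⟩ hx
        exact Set.disjoint_left.1 (hdis j i hji) hj hx
    rw [← isClosed_compl_iff, h1]
    exact Set.Finite.isClosed_biUnion (Set.toFinite _) fun j _ => hcl j
  choose x hx using fun i => (hco i).nonempty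
  let f : Fin m → ConnectedComponents X := fun i => (x i : ConnectedComponents X)
  have hf : Function.Bijective f := by
    constructor
    · intro i j hij
      have h1 : connectedComponent (x i) = connectedComponent (x j) :=
        ConnectedComponents.coe_eq_coe.1 hij
      by_contra hne
      have h2 : connectedComponent (x i) ⊆ Z i := (hclopen i).connectedComponent_subset (hx i)
      have h3 : x j ∈ connectedComponent (x j) := mem_connectedComponent
      rw [← h1] at h3
      exact Set.disjoint_left.1 (hdis i j hne) (h2 h3) (hx j)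
    · intro c
      obtain ⟨y, rfl⟩ := ConnectedComponents.surjective_coe c
      obtain ⟨i, hi⟩ := hcov y
      refine ⟨i, ?_⟩
      have h1 : y ∈ connectedComponent (x i) :=
        (hco i).isPreconnected.subset_connectedComponent (hx i) hi
      exact ConnectedComponents.coe_eq_coe.2 (connectedComponent_eq h1)
  rw [← Nat.card_congr (Equiv.ofBijective f hf), Nat.card_fin]

theorem irreducibleComponents_eq {m : ℕ} (Z : Fin m → Set X) (hcl : ∀ i, IsClosed (Z i))
    (hir : ∀ i, IsIrreducible (Z i)) (hinc : ∀ i j, Z i ⊆ Z j → i = j)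
    (hcov : ∀ x, ∃ i, x ∈ Z i) : irreducibleComponents X = Set.range Z := by
  classical
  have key : ∀ Y : Set X, IsIrreducible Y → ∃ i, Y ⊆ Z i := by
    intro Y hY
    obtain ⟨t, ht, hYt⟩ := isIrreducible_iff_sUnion_isClosed.1 hY (Finset.univ.image Z)
      (by
        intro z hz
        obtain ⟨i, -, rfl⟩ := Finset.mem_image.1 hz
        exact hcl i)
      (by
        intro y hy
        obtain ⟨i, hi⟩ := hcov y
        exact ⟨Z i, by simp, hi⟩)
    obtain ⟨i, -, rfl⟩ := Finset.mem_image.1 ht
    exact ⟨i, hYt⟩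
  ext Y
  constructor
  · intro hY
    have hY' : Maximal IsIrreducible Y := hY
    obtain ⟨i, hi⟩ := key Y hY'.1
    exact ⟨i, (hY'.2 (hir i) hi).antisymm hi⟩
  · rintro ⟨i, rfl⟩
    refine (⟨hir i, fun Y hY h => ?_⟩ : Maximal IsIrreducible (Z i))
    obtain ⟨j, hj⟩ := key Y hY
    have : i = j := hinc i j (Set.Subset.trans h hj)
    subst this
    exact hj

theorem ncard_irreducibleComponents {m : ℕ} (Z : Fin m → Set X) (hcl : ∀ i, IsClosed (Z i))
    (hir : ∀ i, IsIrreducible (Z i)) (hinc : ∀ i j, Z i ⊆ Z j → i = j)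
    (hcov : ∀ x, ∃ i, x ∈ Z i) : (irreducibleComponents X).ncard = m := by
  rw [irreducibleComponents_eq Z hcl hir hinc hcov, ← Set.image_univ,
    Set.ncard_image_of_injective _ (fun i j h => hinc i j h.le), Set.ncard_univ, Nat.card_fin]

theorem isPreirreducible_preimage {s t : Set X} (ht : IsPreirreducible t) (hts : t ⊆ s) :
    IsPreirreducible ((Subtype.val : s → X) ⁻¹' t) := by
  rintro u v hu hv ⟨x, hxt, hxu⟩ ⟨y, hyt, hyv⟩
  obtain ⟨u', hu', rfl⟩ := isOpen_induced_iff.1 hu
  obtain ⟨v', hv', rfl⟩ := isOpen_induced_iff.1 hv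
  obtain ⟨z, hzt, hzu, hzv⟩ := ht u' v' hu' hv' ⟨x.1, hxt, hxu⟩ ⟨y.1, hyt, hyv⟩
  exact ⟨⟨z, hts hzt⟩, hzt, hzu, hzv⟩

end Pool.Agent.KS6_2.FN
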