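import Mathlib
import Pool.Agent.KS6_2.FN.Dim
import Pool.Agent.KS6_2.FN.Topo

set_option autoImplicit false

/-!
Counting the components of the Fano schemes.
-/

namespace Pool.Agent.KS6_2.FN

open Matrix Module

variable {K : Type*} [Field K] {n : ℕ}

/-- the transposed subspace -/
noncomputable def tp (V : Gr n K) : Gr n K :=
  ⟨V.1.map trp, ((Matrix.transposeLinearEquiv (Fin 5) (Fin 5) K K).submoduleMap
      V.1).finrank_eq.symm.trans V.2⟩

lemma comp_tp {p q : ℕ} {V : Gr n K} : Comp p q (tp V).1 ↔ Comp q p V.1 := comp_transpose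

/-- fifteen cells in the first three rows -/
def cA : Fin 15 → Fin 5 × Fin 5 :=
  ![(0,2), (0,3), (0,4), (1,2), (1,3), (1,4), (2,2), (2,3), (2,4), (2,0), (2,1), (1,0), (1,1),
    (0,0), (0,1)]

/-- the thirteen cells in the first two rows and the first column -/
def cB : Fin 13 → Fin 5 × Fin 5 :=
  ![(0,0), (1,0), (2,0), (3,0), (4,0), (0,1), (0,2), (0,3), (0,4), (1,1), (1,2), (1,3), (1,4)]

/-- the cells in the first two rows and one more cell -/
def cC : Fin 11 → Fin 5 × Fin 5 :=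
  ![(0,0), (0,1), (0,2), (0,3), (0,4), (1,0), (1,1), (1,2), (1,3), (1,4), (2,0)]

lemma cA_inj : Function.Injective cA := by decide

lemma cB_inj : Function.Injective cB := by decide

lemma cC_inj : Function.Injective cC := by decide

lemma excl {V : Gr n K} (hn : 11 ≤ n) (h : Comp 5 2 V.1 ∨ Comp 4 3 V.1) :
    ¬ Comp 3 4 V.1 ∧ ¬ Comp 2 5 V.1 := by
  have h1 := V.2
  constructor
  · intro h'
    have := comp_disjoint V.1 h (Or.inl h')
    omega
  · intro h'
    have := comp_disjoint V.1 h (Or.inr h')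
    omega

variable (K) in
lemma exists_A (hn : 11 ≤ n) (hn' : n ≤ 15) :
    ∃ V : Gr n K, Comp 5 2 V.1 ∧ ¬ Comp 4 3 V.1 ∧ ¬ Comp 3 4 V.1 ∧ ¬ Comp 2 5 V.1 := by
  have he : Function.Injective (cA ∘ Fin.castLE hn') := cA_inj.comp (Fin.castLE_injective hn')
  have h1 : Comp 5 2 (cs K (cA ∘ Fin.castLE hn') he).1 := by
    refine comp_cs _ he ![3, 4] id (by decide) (by decide) ?_
    intro k i j
    have : ∀ (k : Fin 15) (i : Fin 2) (j : Fin 5), cA k ≠ (![(3 : Fin 5), 4] i, id j) := by decide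
    exact this _ i j
  refine ⟨cs K _ he, h1, ?_, excl hn (Or.inl h1)⟩
  refine not_comp ![0, 1, 2] ![2, 3, 4] (by decide) (by decide) (fun i j => single_mem_cs he ?_)
    (by norm_num) (by norm_num)
  have : ∀ (i : Fin 3) (j : Fin 3), ∃ k : Fin 9, cA (Fin.castLE (by norm_num) k) =
      (![(0 : Fin 5), 1, 2] i, ![(2 : Fin 5), 3, 4] j) := by decide
  obtain ⟨k, hk⟩ := this i j
  exact ⟨Fin.castLE (by omega) k, hk⟩

variable (K) in
lemma exists_B (hn : 11 ≤ n) (hn' : n ≤ 13) :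
    ∃ V : Gr n K, Comp 4 3 V.1 ∧ ¬ Comp 5 2 V.1 ∧ ¬ Comp 3 4 V.1 ∧ ¬ Comp 2 5 V.1 := by
  have he : Function.Injective (cB ∘ Fin.castLE hn') := cB_inj.comp (Fin.castLE_injective hn')
  have h1 : Comp 4 3 (cs K (cB ∘ Fin.castLE hn') he).1 := by
    refine comp_cs _ he ![2, 3, 4] ![1, 2, 3, 4] (by decide) (by decide) ?_
    intro k i j
    have : ∀ (k : Fin 13) (i : Fin 3) (j : Fin 4),
      cB k ≠ (![(2 : Fin 5), 3, 4] i, ![(1 : Fin 5), 2, 3, 4] j) := by decide
    exact this _ i j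
  refine ⟨cs K _ he, h1, ?_, excl hn (Or.inr h1)⟩
  refine not_comp (id : Fin 5 → Fin 5) ![0] (by decide) (by decide) (fun i j => single_mem_cs he ?_)
    (by norm_num) (by norm_num)
  have : ∀ (i : Fin 5) (j : Fin 1), ∃ k : Fin 5, cB (Fin.castLE (by norm_num) k) =
      (id i, ![(0 : Fin 5)] j) := by decide
  obtain ⟨k, hk⟩ := this i j
  exact ⟨Fin.castLE (by omega) k, hk⟩

variable (K) in
lemma exists_A' (hn : 11 ≤ n) (hn' : n ≤ 15) :
    ∃ V : Gr n K, Comp 2 5 V.1 ∧ ¬ Comp 5 2 V.1 ∧ ¬ Comp 4 3 V.1 ∧ ¬ Comp 3 4 V.1 := by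
  obtain ⟨V, h1, h2, h3, h4⟩ := exists_A K hn hn'
  refine ⟨tp V, comp_tp.2 h1, fun h => h4 (comp_tp.1 h), fun h => h3 (comp_tp.1 h),
    fun h => h2 (comp_tp.1 h)⟩

variable (K) in
lemma exists_B' (hn : 11 ≤ n) (hn' : n ≤ 13) :
    ∃ V : Gr n K, Comp 3 4 V.1 ∧ ¬ Comp 5 2 V.1 ∧ ¬ Comp 4 3 V.1 ∧ ¬ Comp 2 5 V.1 := by
  obtain ⟨V, h1, h2, h3, h4⟩ := exists_B K hn hn'
  refine ⟨tp V, comp_tp.2 h1, fun h => h4 (comp_tp.1 h), fun h => h3 (comp_tp.1 h),
    fun h => h2 (comp_tp.1 h)⟩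

variable (K) in
lemma exists_C : ∃ V : Gr 11 K, Comp 5 2 V.1 ∧ Comp 4 3 V.1 := by
  refine ⟨cs K cC cC_inj, ?_, ?_⟩
  · exact comp_cs _ cC_inj ![3, 4] id (by decide) (by decide) (by decide)
  · exact comp_cs _ cC_inj ![2, 3, 4] ![1, 2, 3, 4] (by decide) (by decide) (by decide)

variable (K) in
lemma exists_C' : ∃ V : Gr 11 K, Comp 3 4 V.1 ∧ Comp 2 5 V.1 := by
  obtain ⟨V, h1, h2⟩ := exists_C K
  exact ⟨tp V, comp_tp.2 h2, comp_tp.2 h1⟩

/-- the family of the compression spaces of one type -/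
def T (n : ℕ) (K : Type*) [Field K] (p q : ℕ) : Set (Fano n K) := {V | Comp p q V.1.1}

lemma closed_T52 : IsClosed (T n K 5 2) :=
  (isClosed_of_closedPred closed_comp52).preimage continuous_subtype_val

lemma closed_T25 : IsClosed (T n K 2 5) :=
  (isClosed_of_closedPred closed_comp25).preimage continuous_subtype_val

lemma closed_T43 [IsAlgClosed K] : IsClosed (T n K 4 3) :=
  (isClosed_of_closedPred closed_comp43).preimage continuous_subtype_val

lemma closed_T34 [IsAlgClosed K] : IsClosed (T n K 3 4) :=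
  (isClosed_of_closedPred closed_comp34).preimage continuous_subtype_val

lemma pre_T [IsAlgClosed K] {p q : ℕ} (hp : p ≤ 5) (hq : q ≤ 5) (h : (5 - p) + (5 - q) ≤ 3) :
    IsPreirreducible (T n K p q) := by
  have hinf : Infinite K := IsAlgClosed.instInfinite
  exact isPreirreducible_preimage (isPreirreducible_comp hp hq) (compr_subset h)

lemma irr_T [IsAlgClosed K] {p q : ℕ} (hp : p ≤ 5) (hq : q ≤ 5) (h : (5 - p) + (5 - q) ≤ 3)
    (hne : ∃ V : Gr n K, Comp p q V.1) : IsIrreducible (T n K p q) := by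
  obtain ⟨V, hV⟩ := hne
  exact ⟨⟨⟨V, compr_subset h hV⟩, hV⟩, pre_T hp hq h⟩

lemma cover [IsAlgClosed K] (hn : 11 ≤ n) (V : Fano n K) :
    V ∈ T n K 5 2 ∨ V ∈ T n K 4 3 ∨ V ∈ T n K 3 4 ∨ V ∈ T n K 2 5 := by
  have h := (fano_eq (K := K) hn).le V.2
  rcases h with ((h | h) | h) | h
  · exact Or.inl h
  · exact Or.inr (Or.inl h)
  · exact Or.inr (Or.inr (Or.inl h))
  · exact Or.inr (Or.inr (Or.inr h))

lemma disj_T (hn : 11 ≤ n) {V : Fano n K} (h : V ∈ T n K 5 2 ∨ V ∈ T n K 4 3) :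
    V ∉ T n K 3 4 ∧ V ∉ T n K 2 5 := excl hn h

/-- the four families -/
def Z (n : ℕ) (K : Type*) [Field K] : Fin 4 → Set (Fano n K) :=
  ![T n K 5 2, T n K 4 3, T n K 3 4, T n K 2 5]

lemma Z_excl (hn : 11 ≤ n) (hn' : n ≤ 13) (i : Fin 4) :
    ∃ V : Fano n K, V ∈ Z n K i ∧ ∀ j, V ∈ Z n K j → i = j := by
  fin_cases i
  · obtain ⟨V, h1, h2, h3, h4⟩ := exists_A K hn (by omega)
    refine ⟨⟨V, compr_subset (by norm_num) h1⟩, h1, fun j hj => ?_⟩
    fin_cases j
    · rfl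
    · exact absurd hj h2
    · exact absurd hj h3
    · exact absurd hj h4
  · obtain ⟨V, h1, h2, h3, h4⟩ := exists_B K hn (by omega)
    refine ⟨⟨V, compr_subset (by norm_num) h1⟩, h1, fun j hj => ?_⟩
    fin_cases j
    · exact absurd hj h2
    · rfl
    · exact absurd hj h3
    · exact absurd hj h4
  · obtain ⟨V, h1, h2, h3, h4⟩ := exists_B' K hn (by omega)
    refine ⟨⟨V, compr_subset (by norm_num) h1⟩, h1, fun j hj => ?_⟩
    fin_cases j
    · exact absurd hj h2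
    · exact absurd hj h3
    · rfl
    · exact absurd hj h4
  · obtain ⟨V, h1, h2, h3, h4⟩ := exists_A' K hn (by omega)
    refine ⟨⟨V, compr_subset (by norm_num) h1⟩, h1, fun j hj => ?_⟩
    fin_cases j
    · exact absurd hj h2
    · exact absurd hj h3
    · exact absurd hj h4
    · rfl

lemma Z_closed [IsAlgClosed K] (i : Fin 4) : IsClosed (Z n K i) := by
  fin_cases i
  · exact closed_T52
  · exact closed_T43
  · exact closed_T34
  · exact closed_T25

lemma Z_pre [IsAlgClosed K] (i : Fin 4) : IsPreirreducible (Z n K i) := by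
  fin_cases i
  · exact pre_T (by norm_num) (by norm_num) (by norm_num)
  · exact pre_T (by norm_num) (by norm_num) (by norm_num)
  · exact pre_T (by norm_num) (by norm_num) (by norm_num)
  · exact pre_T (by norm_num) (by norm_num) (by norm_num)

lemma Z_cover [IsAlgClosed K] (hn : 11 ≤ n) (V : Fano n K) : ∃ i, V ∈ Z n K i := by
  rcases cover hn V with h | h | h | h
  · exact ⟨0, h⟩
  · exact ⟨1, h⟩
  · exact ⟨2, h⟩
  · exact ⟨3, h⟩

lemma Z_irr [IsAlgClosed K] (hn : 11 ≤ n) (hn' : n ≤ 13) (i : Fin 4) : IsIrreducible (Z n K i) := by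
  obtain ⟨V, hV, -⟩ := Z_excl (K := K) hn hn' i
  exact ⟨⟨V, hV⟩, Z_pre i⟩

lemma Z_inc (hn : 11 ≤ n) (hn' : n ≤ 13) (i j : Fin 4) (h : Z n K i ⊆ Z n K j) : i = j := by
  obtain ⟨V, hV, hV'⟩ := Z_excl (K := K) hn hn' i
  exact hV' j (h hV)

theorem irr_eq [IsAlgClosed K] (hn : 11 ≤ n) (hn' : n ≤ 13) :
    irreducibleComponents (Fano n K) = Set.range (Z n K) :=
  irreducibleComponents_eq _ Z_closed (Z_irr hn hn') (Z_inc hn hn') (Z_cover hn)

theorem irr_card [IsAlgClosed K] (hn : 11 ≤ n) (hn' : n ≤ 13) :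
    (irreducibleComponents (Fano n K)).ncard = 4 :=
  ncard_irreducibleComponents _ Z_closed (Z_irr hn hn') (Z_inc hn hn') (Z_cover hn)

lemma Z_disj (hn : 12 ≤ n) (i j : Fin 4) (hij : i ≠ j) : Disjoint (Z n K i) (Z n K j) := by
  rw [Set.disjoint_left]
  intro V hi hj
  have hV := V.1.2
  have h0 : ¬ (V ∈ T n K 5 2 ∧ V ∈ T n K 4 3) := fun h => by
    have := dim52_43 (V := V.1.1) h.1 h.2
    omega
  have h1 : ¬ (V ∈ T n K 3 4 ∧ V ∈ T n K 2 5) := fun h => by
    have := dim34_25 (V := V.1.1) h.1 h.2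
    omega
  have h2 : ¬ ((V ∈ T n K 5 2 ∨ V ∈ T n K 4 3) ∧ (V ∈ T n K 3 4 ∨ V ∈ T n K 2 5)) := fun h => by
    have := comp_disjoint V.1.1 h.1 h.2
    omega
  fin_cases i <;> fin_cases j
  · exact hij rfl
  · exact h0 ⟨hi, hj⟩
  · exact h2 ⟨Or.inl hi, Or.inl hj⟩
  · exact h2 ⟨Or.inl hi, Or.inr hj⟩
  · exact h0 ⟨hj, hi⟩
  · exact hij rfl
  · exact h2 ⟨Or.inr hi, Or.inl hj⟩
  · exact h2 ⟨Or.inr hi, Or.inr hj⟩
  · exact h2 ⟨Or.inl hj, Or.inl hi⟩
  · exact h2 ⟨Or.inr hj, Or.inl hi⟩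
  · exact hij rfl
  · exact h1 ⟨hi, hj⟩
  · exact h2 ⟨Or.inl hj, Or.inr hi⟩
  · exact h2 ⟨Or.inr hj, Or.inr hi⟩
  · exact h1 ⟨hj, hi⟩
  · exact hij rfl

theorem conn_card_mid [IsAlgClosed K] (hn : 12 ≤ n) (hn' : n ≤ 13) :
    Nat.card (ConnectedComponents (Fano n K)) = 4 :=
  card_connectedComponents _ Z_closed
    (fun i => ⟨(Z_irr (by omega) hn' i).nonempty, (Z_pre i).isPreconnected⟩)
    (Z_disj hn) (Z_cover (by omega))

lemma conn_left [IsAlgClosed K] : IsConnected (T 11 K 5 2 ∪ T 11 K 4 3) := by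
  obtain ⟨V, h1, h2⟩ := exists_C K
  have hV : V ∈ Fano 11 K := compr_subset (by norm_num) h1
  refine ⟨⟨⟨V, hV⟩, Or.inl h1⟩, ?_⟩
  exact IsPreconnected.union ⟨V, hV⟩ h1 h2
    (pre_T (by norm_num) (by norm_num) (by norm_num)).isPreconnected
    (pre_T (by norm_num) (by norm_num) (by norm_num)).isPreconnected

lemma conn_right [IsAlgClosed K] : IsConnected (T 11 K 3 4 ∪ T 11 K 2 5) := by
  obtain ⟨V, h1, h2⟩ := exists_C' K
  have hV : V ∈ Fano 11 K := compr_subset (by norm_num) h1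
  refine ⟨⟨⟨V, hV⟩, Or.inl h1⟩, ?_⟩
  exact IsPreconnected.union ⟨V, hV⟩ h1 h2
    (pre_T (by norm_num) (by norm_num) (by norm_num)).isPreconnected
    (pre_T (by norm_num) (by norm_num) (by norm_num)).isPreconnected

lemma disj_left_right : Disjoint (T 11 K 5 2 ∪ T 11 K 4 3) (T 11 K 3 4 ∪ T 11 K 2 5) := by
  rw [Set.disjoint_left]
  rintro V h1 h2
  have := comp_disjoint V.1.1 h1 h2
  have hV := V.1.2
  omega

/-- the two connected components for `n = 11` -/
def Y (K : Type*) [Field K] : Fin 2 → Set (Fano 11 K) :=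
  ![T 11 K 5 2 ∪ T 11 K 4 3, T 11 K 3 4 ∪ T 11 K 2 5]

theorem conn_card_11 [IsAlgClosed K] : Nat.card (ConnectedComponents (Fano 11 K)) = 2 := by
  refine card_connectedComponents (Y K) ?_ ?_ ?_ ?_
  · intro i
    fin_cases i
    · exact closed_T52.union closed_T43
    · exact closed_T34.union closed_T25
  · intro i
    fin_cases i
    · exact conn_left
    · exact conn_right
  · intro i j hij
    fin_cases i <;> fin_cases j
    · exact absurd rfl hij
    · exact disj_left_right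
    · exact disj_left_right.symm
    · exact absurd rfl hij
  · intro V
    rcases cover le_rfl V with h | h | h | h
    · exact ⟨0, Or.inl h⟩
    · exact ⟨0, Or.inr h⟩
    · exact ⟨1, Or.inl h⟩
    · exact ⟨1, Or.inr h⟩

/-- the two families for `n = 14, 15` -/
def X (n : ℕ) (K : Type*) [Field K] : Fin 2 → Set (Fano n K) := ![T n K 5 2, T n K 2 5]

lemma X_closed (i : Fin 2) : IsClosed (X n K i) := by
  fin_cases i
  · exact closed_T52
  · exact closed_T25

lemma X_irr [IsAlgClosed K] (hn : 14 ≤ n) (hn' : n ≤ 15) (i : Fin 2) :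
    IsIrreducible (X n K i) := by
  fin_cases i
  · obtain ⟨V, hV, -⟩ := exists_A K (n := n) (by omega) hn'
    exact irr_T (by norm_num) (by norm_num) (by norm_num) ⟨V, hV⟩
  · obtain ⟨V, hV, -⟩ := exists_A' K (n := n) (by omega) hn'
    exact irr_T (by norm_num) (by norm_num) (by norm_num) ⟨V, hV⟩

lemma X_disj (hn : 14 ≤ n) (i j : Fin 2) (hij : i ≠ j) : Disjoint (X n K i) (X n K j) := by
  have : Disjoint (T n K 5 2) (T n K 2 5) := by
    rw [Set.disjoint_left]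
    intro V h1 h2
    have := comp_disjoint V.1.1 (Or.inl h1) (Or.inr h2)
    have hV := V.1.2
    omega
  fin_cases i <;> fin_cases j
  · exact absurd rfl hij
  · exact this
  · exact this.symm
  · exact absurd rfl hij

lemma X_cover [IsAlgClosed K] (hn : 14 ≤ n) (V : Fano n K) : ∃ i, V ∈ X n K i := by
  have hV := V.1.2
  rcases cover (by omega) V with h | h | h | h
  · exact ⟨0, h⟩
  · have := dim43 (V := V.1.1) h
    omega
  · have := dim34 (V := V.1.1) h
    omega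
  · exact ⟨1, h⟩

theorem conn_card_high [IsAlgClosed K] (hn : 14 ≤ n) (hn' : n ≤ 15) :
    Nat.card (ConnectedComponents (Fano n K)) = 2 :=
  card_connectedComponents _ X_closed
    (fun i => ⟨(X_irr hn hn' i).nonempty, (X_irr hn hn' i).isPreirreducible.isPreconnected⟩)
    (X_disj hn) (X_cover hn)

lemma X_inc [IsAlgClosed K] (hn : 14 ≤ n) (hn' : n ≤ 15) (i j : Fin 2) (h : X n K i ⊆ X n K j) :
    i = j := by
  by_contra hij
  obtain ⟨V, hV⟩ := (X_irr (K := K) hn hn' i).nonempty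
  exact Set.disjoint_left.1 (X_disj hn i j hij) hV (h hV)

theorem irr_eq_high [IsAlgClosed K] (hn : 14 ≤ n) (hn' : n ≤ 15) :
    irreducibleComponents (Fano n K) = Set.range (X n K) :=
  irreducibleComponents_eq _ X_closed (X_irr hn hn') (X_inc hn hn') (X_cover hn)

theorem irr_card_high [IsAlgClosed K] (hn : 14 ≤ n) (hn' : n ≤ 15) :
    (irreducibleComponents (Fano n K)).ncard = 2 :=
  ncard_irreducibleComponents _ X_closed (X_irr hn hn') (X_inc hn hn') (X_cover hn)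

theorem fano_empty [IsAlgClosed K] (hn : 16 ≤ n) : Fano n K = ∅ := by
  rw [Set.eq_empty_iff_forall_notMem]
  intro V hV
  have h2 := V.2
  rcases cover (by omega) ⟨V, hV⟩ with h | h | h | h
  · have := dim52 (V := V.1) h
    omega
  · have := dim43 (V := V.1) h
    omega
  · have := dim34 (V := V.1) h
    omega
  · have := dim25 (V := V.1) h
    omega

end Pool.Agent.KS6_2.FN
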